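import Pool.Agent.Lib_helper61.Rat.Window

/-!
A verified checker for case trees with affine Farkas certificates over windows of logarithms
(to the base 5), for recurrences whose coefficients are powers of 5.
-/

set_option autoImplicit false

namespace Pool.Agent.RatRec

/-- The exponent of the term number `k` at the backward time `d`. -/
def zc (g : List ℤ) (y : ℕ → ℝ) (d k : ℕ) : ℝ := ((g.getD k 0 : ℤ) : ℝ) + zv y d k

/-- The tropical form of the recurrence on a window, with coefficients. -/
def AWindow (S T : List ℕ) (g h : List ℤ) (eS eT : ℤ) (W : ℕ) (y : ℕ → ℝ) : Prop :=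
  ∀ d, d + 4 < W →
    (∀ i ∈ S, (∀ k ∈ S, zc g y d k ≤ zc g y d i) → ∀ j ∈ T,
      y d - zc g y d i + zc h y d j ≤ eS) ∧
    (∀ j ∈ T, (∀ k ∈ T, zc h y d k ≤ zc h y d j) → ∀ i ∈ S,
      - y d + zc g y d i - zc h y d j ≤ eT)

/-- The meaning of a fact. -/
def AFactOK (S T : List ℕ) (g h : List ℤ) (W : ℕ) (y : ℕ → ℝ) (f : Fact) : Prop :=
  f.2.1 + 4 < W ∧
    match f.1 with
    | false => f.2.2 ∈ S ∧ ∀ k ∈ S, zc g y f.2.1 k ≤ zc g y f.2.1 f.2.2
    | true => f.2.2 ∈ T ∧ ∀ k ∈ T, zc h y f.2.1 k ≤ zc h y f.2.1 f.2.2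

/-- The constant of an atom. -/
def aconst (g h : List ℤ) (eS eT : ℤ) (HC : List ℤ) (a : Atom) : ℤ :=
  match a with
  | (0, t, _, _, m) => m * HC.getD t 0
  | (1, _, i, j, m) => m * (g.getD i 0 - h.getD j 0 + eS)
  | (2, _, i, j, m) => m * (h.getD j 0 - g.getD i 0 + eT)
  | (3, _, i, j, m) => m * (g.getD j 0 - g.getD i 0)
  | (4, _, i, j, m) => m * (h.getD j 0 - h.getD i 0)
  | _ => 0

/-- The sum of the constants. -/
def constSum (g h : List ℤ) (eS eT : ℤ) (HC : List ℤ) : List Atom → ℤ
  | [] => 0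
  | a :: l => aconst g h eS eT HC a + constSum g h eS eT HC l

theorem aatom_le {S T : List ℕ} {g h : List ℤ} {eS eT : ℤ} {W : ℕ} {y : ℕ → ℝ}
    (hw : AWindow S T g h eS eT W y) {H : List (List ℤ)} {HC : List ℤ}
    (hH : ∀ t, t < H.length → ev y 0 (H.getD t []) ≤ ((HC.getD t 0 : ℤ) : ℝ)) {ctx : List Fact}
    (hctx : ∀ f ∈ ctx, AFactOK S T g h W y f) {a : Atom} (ha : atomOK S T H ctx a = true)
    (l : List ℤ) :
    ev y 0 (addAtom H a l) ≤ (aconst g h eS eT HC a : ℤ) + ev y 0 l := by
  obtain ⟨ty, d, i, j, m⟩ := a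
  have hm : (0 : ℝ) ≤ m := Nat.cast_nonneg m
  match ty with
  | 0 =>
    simp only [atomOK, Nat.blt_eq] at ha
    have h2 := hH _ ha
    simp only [addAtom, ev_addForm, aconst]
    have := mul_le_mul_of_nonneg_left h2 hm
    push_cast
    linarith
  | 1 =>
    simp only [atomOK, Bool.and_eq_true] at ha
    obtain ⟨h0, h1, h2⟩ := hctx _ (memF_iff ha.1)
    have h3 := (hw d h0).1 i h1 h2 j (memN_iff ha.2)
    simp only [addAtom, ev_addAt, ev_addZ, aconst]
    have := mul_le_mul_of_nonneg_left h3 hm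
    simp only [zc] at this
    push_cast
    rw [zero_add]
    linarith
  | 2 =>
    simp only [atomOK, Bool.and_eq_true] at ha
    obtain ⟨h0, h1, h2⟩ := hctx _ (memF_iff ha.1)
    have h3 := (hw d h0).2 j h1 h2 i (memN_iff ha.2)
    simp only [addAtom, ev_addAt, ev_addZ, aconst]
    have := mul_le_mul_of_nonneg_left h3 hm
    simp only [zc] at this
    push_cast
    rw [zero_add]
    linarith
  | 3 =>
    simp only [atomOK, Bool.and_eq_true] at ha
    obtain ⟨h0, h1, h2⟩ := hctx _ (memF_iff ha.1)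
    have h3 := h2 i (memN_iff ha.2)
    simp only [addAtom, ev_addZ, aconst]
    have := mul_le_mul_of_nonneg_left h3 hm
    simp only [zc] at this
    push_cast
    linarith
  | 4 =>
    simp only [atomOK, Bool.and_eq_true] at ha
    obtain ⟨h0, h1, h2⟩ := hctx _ (memF_iff ha.1)
    have h3 := h2 i (memN_iff ha.2)
    simp only [addAtom, ev_addZ, aconst]
    have := mul_le_mul_of_nonneg_left h3 hm
    simp only [zc] at this
    push_cast
    linarith
  | (n + 5) => simp [atomOK] at ha

theorem aatoms_le {S T : List ℕ} {g h : List ℤ} {eS eT : ℤ} {W : ℕ} {y : ℕ → ℝ}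
    (hw : AWindow S T g h eS eT W y) {H : List (List ℤ)} {HC : List ℤ}
    (hH : ∀ t, t < H.length → ev y 0 (H.getD t []) ≤ ((HC.getD t 0 : ℤ) : ℝ)) {ctx : List Fact}
    (hctx : ∀ f ∈ ctx, AFactOK S T g h W y f) {as : List Atom}
    (ha : atomsOK S T H ctx as = true) (l : List ℤ) :
    ev y 0 (sumAtoms H as l) ≤ (constSum g h eS eT HC as : ℤ) + ev y 0 l := by
  induction as generalizing l with
  | nil => simp [sumAtoms, constSum]
  | cons a as ih =>
    simp only [atomsOK, Bool.and_eq_true] at ha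
    have h1 := ih ha.2 (addAtom H a l)
    have h2 := aatom_le hw hH hctx ha.1 l
    simp only [sumAtoms, constSum]
    push_cast
    linarith

/-- Check of a leaf: the sum of the atoms is the contradiction `0 < 0`. -/
def aleafOK (S T : List ℕ) (g h : List ℤ) (eS eT : ℤ) (H : List (List ℤ)) (HC : List ℤ)
    (ctx : List Fact) (cert : List Atom) : Bool :=
  atomsOK S T H ctx cert && allZero (sumAtoms H cert []) &&
    decide (constSum g h eS eT HC cert < 0)

/-- The checker. -/
def chkA (S T : List ℕ) (g h : List ℤ) (eS eT : ℤ) (W : ℕ) (H : List (List ℤ)) (HC : List ℤ) :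
    Tree → List Fact → Option (Bool × ℕ × List ℕ) → Bool
  | .leaf _ _ cert, ctx, none => aleafOK S T g h eS eT H HC ctx cert
  | .split k d ch, ctx, none =>
      Nat.blt (d + 4) W && chkA S T g h eS eT W H HC ch ctx (some (k, d, if k then T else S))
  | .cons a b, ctx, some (k, d, i :: r) =>
      chkA S T g h eS eT W H HC a ((k, d, i) :: ctx) none &&
        chkA S T g h eS eT W H HC b ctx (some (k, d, r))
  | .nil, _, some (_, _, []) => true
  | _, _, _ => false

theorem exists_amax (g : List ℤ) (y : ℕ → ℝ) (d : ℕ) {S : List ℕ} (hS : S ≠ []) :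
    ∃ i ∈ S, ∀ k ∈ S, zc g y d k ≤ zc g y d i := by
  have hne : S.toFinset.Nonempty := by
    obtain ⟨a, l, rfl⟩ := List.exists_cons_of_ne_nil hS
    exact ⟨a, by simp⟩
  obtain ⟨i, hi, hm⟩ := Finset.exists_max_image S.toFinset (fun k => zc g y d k) hne
  exact ⟨i, by simpa using hi, fun k hk => hm k (by simpa using hk)⟩

theorem chkA_sound {S T : List ℕ} (hS : S ≠ []) (hT : T ≠ []) {g h : List ℤ} {eS eT : ℤ} {W : ℕ}
    {y : ℕ → ℝ} (hw : AWindow S T g h eS eT W y) {H : List (List ℤ)} {HC : List ℤ}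
    (hH : ∀ t, t < H.length → ev y 0 (H.getD t []) ≤ ((HC.getD t 0 : ℤ) : ℝ)) (t : Tree) :
    ∀ ctx pend, chkA S T g h eS eT W H HC t ctx pend = true →
      (∀ f ∈ ctx, AFactOK S T g h W y f) →
      ((pend = none → False) ∧
        ∀ k d l, pend = some (k, d, l) → (∃ i ∈ l, AFactOK S T g h W y (k, d, i)) → False) := by
  induction t with
  | leaf g' m cert =>
    intro ctx pend hc hctx
    cases pend with
    | some p => obtain ⟨k, d, l⟩ := p; simp [chkA] at hc
    | none =>
      refine ⟨fun _ => ?_, fun k d l h => by simp at h⟩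
      simp only [chkA, aleafOK, Bool.and_eq_true, decide_eq_true_eq] at hc
      obtain ⟨⟨h1, h2⟩, h3⟩ := hc
      have e1 := aatoms_le hw hH hctx h1 []
      have e2 := ev_allZero y _ 0 h2
      have e3 : ((constSum g h eS eT HC cert : ℤ) : ℝ) < 0 := by exact_mod_cast h3
      simp only [ev] at e1
      linarith
  | split k d ch ih =>
    intro ctx pend hc hctx
    cases pend with
    | some p => obtain ⟨k, d, l⟩ := p; simp [chkA] at hc
    | none =>
      refine ⟨fun _ => ?_, fun k d l h => by simp at h⟩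
      simp only [chkA, Bool.and_eq_true, Nat.blt_eq] at hc
      obtain ⟨h1, h2⟩ := hc
      refine (ih ctx _ h2 hctx).2 k d _ rfl ?_
      cases k with
      | false =>
        obtain ⟨i, hi, hm⟩ := exists_amax g y d hS
        exact ⟨i, by simpa using hi, h1, hi, hm⟩
      | true =>
        obtain ⟨i, hi, hm⟩ := exists_amax h y d hT
        exact ⟨i, by simpa using hi, h1, hi, hm⟩
  | cons a b iha ihb =>
    intro ctx pend hc hctx
    cases pend with
    | none => simp [chkA] at hc
    | some p =>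
      obtain ⟨k, d, l⟩ := p
      refine ⟨fun h => by simp at h, ?_⟩
      intro k' d' l' hp hex
      simp only [Option.some.injEq, Prod.mk.injEq] at hp
      obtain ⟨rfl, rfl, rfl⟩ := hp
      cases l with
      | nil => simp at hex
      | cons i r =>
        simp only [chkA, Bool.and_eq_true] at hc
        obtain ⟨h1, h2⟩ := hc
        obtain ⟨i', hi', hf⟩ := hex
        rcases List.mem_cons.mp hi' with rfl | hi'
        · refine (iha _ _ h1 ?_).1 rfl
          intro f hfm
          rcases List.mem_cons.mp hfm with rfl | hfm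
          · exact hf
          · exact hctx f hfm
        · exact (ihb _ _ h2 hctx).2 k d r rfl ⟨i', hi', hf⟩
  | nil =>
    intro ctx pend hc hctx
    cases pend with
    | none => simp [chkA] at hc
    | some p =>
      obtain ⟨k, d, l⟩ := p
      refine ⟨fun h => by simp at h, ?_⟩
      intro k' d' l' hp hex
      simp only [Option.some.injEq, Prod.mk.injEq] at hp
      obtain ⟨rfl, rfl, rfl⟩ := hp
      cases l with
      | nil => simp at hex
      | cons i r => simp [chkA] at hc

end Pool.Agent.RatRec
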