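import Pool.Agent.Lib_helper86.RatU.Zero

/-!
The case `x_n = b x_{n-4} / (B x_{n-1})`: a solution `exp (l ^ n)` with `l < -1`.
-/

set_option autoImplicit false

namespace Pool.Agent.RatRec

theorem exists_root162 : ∃ l : ℝ, l < -1 ∧ l ^ 4 = 1 - l ^ 3 := by
  have hc : ContinuousOn (fun l : ℝ => l ^ 4 + l ^ 3) (Set.Icc (-2) (-1)) := by
    fun_prop
  have h := intermediate_value_Icc' (show (-2 : ℝ) ≤ -1 by norm_num) hc
  have h1 : (1 : ℝ) ∈ Set.Icc ((-1 : ℝ) ^ 4 + (-1 : ℝ) ^ 3) ((-2 : ℝ) ^ 4 + (-2 : ℝ) ^ 3) := by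
    constructor <;> norm_num
  obtain ⟨l, ⟨hl1, hl2⟩, hl⟩ := h h1
  simp only at hl
  refine ⟨l, lt_of_le_of_ne hl2 ?_, by linarith⟩
  rintro rfl
  norm_num at hl

theorem unb_16_2 : ¬ BoundedOnly (fs 16) (fs 2) := by
  intro hB
  obtain ⟨l, hl, hl4⟩ := exists_root162
  set x : ℕ → ℝ := fun n => Real.exp (l ^ n) with hx
  have hpos : ∀ n, 0 < x n := fun n => Real.exp_pos _
  have hnum : ∀ n, lin (zcoef 16) x n = x n := by
    intro n
    have a0 : zcoef 16 0 = 0 := by
      have : (0 : Fin 5) ∉ fs 16 := by decide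
      simp [zcoef, this]
    have a1 : zcoef 16 1 = 0 := by
      have : (1 : Fin 5) ∉ fs 16 := by decide
      simp [zcoef, this]
    have a2 : zcoef 16 2 = 0 := by
      have : (2 : Fin 5) ∉ fs 16 := by decide
      simp [zcoef, this]
    have a3 : zcoef 16 3 = 0 := by
      have : (3 : Fin 5) ∉ fs 16 := by decide
      simp [zcoef, this]
    have a4 : zcoef 16 4 = 1 := by
      have : (4 : Fin 5) ∈ fs 16 := by decide
      simp [zcoef, this]
    simp only [lin, a0, a1, a2, a3, a4]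
    ring
  have hden : ∀ n, lin (zcoef 2) x n = x (n + 3) := by
    intro n
    have a0 : zcoef 2 0 = 0 := by
      have : (0 : Fin 5) ∉ fs 2 := by decide
      simp [zcoef, this]
    have a1 : zcoef 2 1 = 1 := by
      have : (1 : Fin 5) ∈ fs 2 := by decide
      simp [zcoef, this]
    have a2 : zcoef 2 2 = 0 := by
      have : (2 : Fin 5) ∉ fs 2 := by decide
      simp [zcoef, this]
    have a3 : zcoef 2 3 = 0 := by
      have : (3 : Fin 5) ∉ fs 2 := by decide
      simp [zcoef, this]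
    have a4 : zcoef 2 4 = 0 := by
      have : (4 : Fin 5) ∉ fs 2 := by decide
      simp [zcoef, this]
    simp only [lin, a0, a1, a2, a3, a4]
    ring
  have hsol : IsSolution (zcoef 16) (zcoef 2) x := by
    refine ⟨fun n _ => (hpos n).le, fun n => by rw [hden]; exact hpos _, fun n => ?_⟩
    rw [hnum, hden, eq_div_iff (hpos _).ne']
    simp only [hx]
    rw [← Real.exp_add]
    congr 1
    have : l ^ (n + 4) + l ^ (n + 3) = l ^ n * (l ^ 4 + l ^ 3) := by ring
    rw [this, hl4]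
    ring
  obtain ⟨M, hM⟩ := hB _ _ (zcoef_supported 16) (zcoef_supported 2) x hsol
  have hl2 : 1 < l ^ 2 := by nlinarith
  obtain ⟨k, hk⟩ := pow_unbounded_of_one_lt M hl2
  have h1 := hM (2 * k)
  have h2 : l ^ (2 * k) < Real.exp (l ^ (2 * k)) := by
    have := Real.add_one_le_exp (l ^ (2 * k))
    linarith
  have h3 : x (2 * k) = Real.exp (l ^ (2 * k)) := rfl
  rw [h3] at h1
  rw [← pow_mul] at hk
  linarith

end Pool.Agent.RatRec
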