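import Pool.Agent.Lib_helper86.RatU.C312a
import Pool.Agent.Lib_helper61.Rat.Window

/-!
The case `x_n = (1/2 + x_{n-1}) / (x_{n-2} + x_{n-3})` has unbounded solutions.
-/

set_option autoImplicit false

namespace Pool.Agent.RatRec

/-- There is a positive solution with given positive initial values. -/
theorem exists_pos_sol86 {b B : Fin 5 → ℝ} {S T : Finset (Fin 5)} (hb : SupportedOn b S)
    (hB : SupportedOn B T) (hS : S.Nonempty) (hT : T.Nonempty) {s0 s1 s2 s3 : ℝ}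
    (h0 : 0 < s0) (h1 : 0 < s1) (h2 : 0 < s2) (h3 : 0 < s3) :
    ∃ x : ℕ → ℝ, PosSolution b B x ∧ IsSolution b B x ∧ x 0 = s0 ∧ x 1 = s1 ∧ x 2 = s2 ∧
      x 3 = s3 := by
  have hx := posSolution_seq hb hB hS hT (s := (s0, s1, s2, s3)) h0 h1 h2 h3
  exact ⟨_, hx, ⟨fun n _ => (hx.pos n).le,
    fun n => lin_pos hB hT (hx.pos _) (hx.pos _) (hx.pos _) (hx.pos _), hx.step⟩,
    rfl, rfl, rfl, rfl⟩

namespace C312

/-- The ratios. -/
noncomputable def R (y : ℕ → ℝ) (k : ℕ) : ℝ := y (k + 2) * y k / y (k + 1)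

/-- The functional. -/
noncomputable def W (y : ℕ → ℝ) (k : ℕ) : ℝ := y (k + 2) * (1 + 3 / 4 / y (k + 1))

/-- The sequences considered. -/
structure Seq (y : ℕ → ℝ) : Prop where
  pos : ∀ n, 0 < y n
  step : ∀ n, y (n + 3) * (y (n + 1) + y n) = 1 / 2 + y (n + 2)

/-- The good states. -/
structure Good (y : ℕ → ℝ) (k : ℕ) : Prop where
  lo : 1 / 2 ≤ R y k
  hi : R y k ≤ 1
  a1 : 1 / 10000 ≤ y (k + 1)
  b1 : 4000 * y (k + 1) ≤ y (k + 2)
  w1 : 10 ^ 12 ≤ W y k

theorem R_step {y : ℕ → ℝ} (hy : Seq y) (k : ℕ) :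
    R y (k + 1) * (y (k + 2) + R y k) = y (k + 2) + 1 / 2 := by
  have := rstep (hy.pos (k + 2)) (hy.pos (k + 1)) (hy.step k)
  exact this

theorem R_mul {y : ℕ → ℝ} (hy : Seq y) (k : ℕ) : y (k + 3) * y k = R y (k + 1) * R y k := by
  have h1 := (hy.pos (k + 1)).ne'
  have h2 := (hy.pos (k + 2)).ne'
  simp only [R]
  have e1 : k + 1 + 2 = k + 3 := by ring
  have e2 : k + 1 + 1 = k + 2 := by ring
  rw [e1, e2]
  field_simp

theorem R_mul1 {y : ℕ → ℝ} (hy : Seq y) (k : ℕ) : y (k + 2) * y k = R y k * y (k + 1) := by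
  have h1 := (hy.pos (k + 1)).ne'
  simp only [R]
  field_simp

theorem R_pos {y : ℕ → ℝ} (hy : Seq y) (k : ℕ) : 0 < R y k :=
  div_pos (mul_pos (hy.pos _) (hy.pos _)) (hy.pos _)

/-- For small `a` the functional bounds the next term. -/
theorem X_ge {y : ℕ → ℝ} (hy : Seq y) {k : ℕ} (ha : y (k + 1) ≤ 1) (hW : 10 ^ 12 ≤ W y k) :
    10 ^ 12 * y (k + 1) ≤ 7 / 4 * y (k + 2) := by
  have pa := hy.pos (k + 1)
  have pX := hy.pos (k + 2)
  have h1 : W y k * y (k + 1) = y (k + 2) * (y (k + 1) + 3 / 4) := by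
    simp only [W]
    field_simp
  have h2 : 10 ^ 12 * y (k + 1) ≤ W y k * y (k + 1) := mul_le_mul_of_nonneg_right hW pa.le
  rw [h1] at h2
  have h3 : y (k + 2) * (y (k + 1) + 3 / 4) ≤ y (k + 2) * (7 / 4) :=
    mul_le_mul_of_nonneg_left (by linarith) pX.le
  linarith

theorem stepA {y : ℕ → ℝ} (hy : Seq y) {k : ℕ} (h : Good y k) (ha : 1 / 5000 ≤ y (k + 1)) :
    Good y (k + 6) ∧ W y k ≤ W y (k + 6) ∧ y (k + 7) ≤ 3 / 4 * y (k + 1) := by
  have pa := hy.pos (k + 1)
  have pX := hy.pos (k + 2)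
  have hK : 1000 * (1 + y (k + 1)) ^ 2 ≤ y (k + 2) * y (k + 1) := by
    rcases le_or_gt 1 (y (k + 1)) with h1 | h1
    · have h2 : 4000 * y (k + 1) * y (k + 1) ≤ y (k + 2) * y (k + 1) :=
        mul_le_mul_of_nonneg_right h.b1 pa.le
      nlinarith
    · have h2 := X_ge hy h1.le h.w1
      have h3 : 10 ^ 12 * y (k + 1) * y (k + 1) ≤ 7 / 4 * y (k + 2) * y (k + 1) :=
        mul_le_mul_of_nonneg_right h2 pa.le
      have h4 : (1 / 5000 : ℝ) * (1 / 5000) ≤ y (k + 1) * y (k + 1) :=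
        mul_le_mul ha ha (by norm_num) pa.le
      nlinarith
  obtain ⟨c1, c2, c3, c4⟩ := core (a := y (k + 1)) (X := y (k + 2)) (r1 := R y k)
    (r2 := R y (k + 1)) (r3 := R y (k + 2)) (r4 := R y (k + 3)) (r5 := R y (k + 4))
    (r6 := R y (k + 5)) (r7 := R y (k + 6)) (x2 := y (k + 3)) (x3 := y (k + 4))
    (x4 := y (k + 5)) (x5 := y (k + 6)) (x6 := y (k + 7)) (x7 := y (k + 8))
    pa pX (hy.pos _) (hy.pos _) (hy.pos _) (hy.pos _) (hy.pos _) (hy.pos _) h.lo h.hi
    (R_step hy k) (R_mul1 hy (k + 1))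
    (R_step hy (k + 1)) (R_mul hy (k + 1)) (R_step hy (k + 2)) (R_mul hy (k + 2))
    (R_step hy (k + 3)) (R_mul hy (k + 3)) (R_step hy (k + 4)) (R_mul hy (k + 4))
    (R_step hy (k + 5)) (R_mul hy (k + 5)) hK
  have hW : W y k ≤ W y (k + 6) := c1
  -- the ratios stay in the interval
  have q1 := rbound (hy.pos (k + 2)) h.lo h.hi (R_step hy k)
  have q2 := rbound (hy.pos (k + 3)) q1.1 q1.2.1 (R_step hy (k + 1))
  have q3 := rbound (hy.pos (k + 4)) q2.1 q2.2.1 (R_step hy (k + 2))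
  have q4 := rbound (hy.pos (k + 5)) q3.1 q3.2.1 (R_step hy (k + 3))
  have q5 := rbound (hy.pos (k + 6)) q4.1 q4.2.1 (R_step hy (k + 4))
  have q6 := rbound (hy.pos (k + 7)) q5.1 q5.2.1 (R_step hy (k + 5))
  have hW' : 10 ^ 12 ≤ W y (k + 6) := h.w1.trans hW
  refine ⟨⟨q6.1, q6.2.1, ?_, ?_, hW'⟩, hW, c3⟩
  · have : y (k + 6 + 1) = y (k + 7) := rfl
    rw [this]
    linarith
  · have e1 : y (k + 6 + 1) = y (k + 7) := rfl
    have e2 : y (k + 6 + 2) = y (k + 8) := rfl
    rcases le_or_gt 1 (y (k + 7)) with h1 | h1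
    · have h2 := c4 h1
      have h3 : 4000 * y (k + 1) * y (k + 7) ≤ y (k + 2) * y (k + 7) :=
        mul_le_mul_of_nonneg_right h.b1 (hy.pos _).le
      rw [e1, e2]
      have h4 : 4000 * y (k + 7) * y (k + 1) ≤ y (k + 8) * y (k + 1) := by linarith
      exact le_of_mul_le_mul_right h4 pa
    · have h2 := X_ge hy (k := k + 6) h1.le hW'
      rw [e1, e2] at h2
      rw [e1, e2]
      have := hy.pos (k + 7)
      linarith

theorem stepB {y : ℕ → ℝ} (hy : Seq y) {k : ℕ} (h : Good y k) (ha : y (k + 1) ≤ 1 / 5000) :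
    Good y (k + 1) ∧ 5 / 4 * W y k ≤ W y (k + 1) := by
  have pa := hy.pos (k + 1)
  have pX := hy.pos (k + 2)
  have p3 := hy.pos (k + 3)
  obtain ⟨q1, q2, q3⟩ := rbound pX h.lo h.hi (R_step hy k)
  have hX := X_ge hy (by linarith) h.w1
  have hX1 : 50000000 ≤ y (k + 2) := by
    have := h.a1
    linarith
  have hr : 99 / 100 ≤ R y (k + 1) := by
    have h1 : (1 - R y (k + 1)) * 50 ≤ (1 - R y (k + 1)) * y (k + 2) :=
      mul_le_mul_of_nonneg_left (by linarith) (by linarith)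
    linarith
  have f : y (k + 3) * y (k + 1) = R y (k + 1) * y (k + 2) := R_mul1 hy (k + 1)
  have e1 : y (k + 1 + 1) = y (k + 2) := rfl
  have e2 : y (k + 1 + 2) = y (k + 3) := rfl
  have hY : 99 / 100 * y (k + 2) ≤ y (k + 3) * y (k + 1) := by
    rw [f]
    exact mul_le_mul_of_nonneg_right hr pX.le
  have hb : 4000 * y (k + 2) ≤ y (k + 3) := by
    have h1 : y (k + 3) * y (k + 1) ≤ y (k + 3) * (1 / 5000) :=
      mul_le_mul_of_nonneg_left ha p3.le
    linarith
  have hW1 : y (k + 3) ≤ W y (k + 1) := by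
    have h1 : W y (k + 1) = y (k + 3) + y (k + 3) * (3 / 4 / y (k + 2)) := by
      simp only [W]
      rw [e1, e2]
      ring
    rw [h1]
    have : 0 ≤ y (k + 3) * (3 / 4 / y (k + 2)) := by positivity
    linarith
  have hW2 : 5 / 4 * W y k ≤ y (k + 3) := by
    have h1 : W y k * y (k + 1) = y (k + 2) * (y (k + 1) + 3 / 4) := by
      simp only [W]
      field_simp
    have h2 : 5 / 4 * W y k * y (k + 1) ≤ y (k + 3) * y (k + 1) := by
      have h3 : y (k + 2) * (y (k + 1) + 3 / 4) ≤ y (k + 2) * (76 / 100) :=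
        mul_le_mul_of_nonneg_left (by linarith) pX.le
      have h4 : 5 / 4 * W y k * y (k + 1) = 5 / 4 * (W y k * y (k + 1)) := by ring
      rw [h4, h1]
      linarith
    exact le_of_mul_le_mul_right h2 pa
  have hWpos : 0 ≤ W y k := le_trans (by norm_num) h.w1
  refine ⟨⟨q1, q2, ?_, ?_, ?_⟩, hW2.trans hW1⟩
  · rw [e1]
    linarith
  · rw [e1, e2]
    exact hb
  · have := h.w1
    have := hW2.trans hW1
    linarith

theorem grow {y : ℕ → ℝ} (hy : Seq y) (m : ℕ) : ∀ k, Good y k →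
    y (k + 1) ≤ (4 / 3) ^ m * (1 / 5000) → ∃ k', Good y k' ∧ 5 / 4 * W y k ≤ W y k' := by
  induction m with
  | zero =>
    intro k hk ha
    obtain ⟨h1, h2⟩ := stepB hy hk (by simpa using ha)
    exact ⟨k + 1, h1, h2⟩
  | succ m ih =>
    intro k hk ha
    rcases le_total (y (k + 1)) (1 / 5000) with h0 | h0
    · obtain ⟨h1, h2⟩ := stepB hy hk h0
      exact ⟨k + 1, h1, h2⟩
    · obtain ⟨h1, h2, h3⟩ := stepA hy hk h0
      obtain ⟨k', h4, h5⟩ := ih (k + 6) h1 (by
        have e : y (k + 6 + 1) = y (k + 7) := rfl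
        rw [e]
        rw [pow_succ] at ha
        linarith)
      exact ⟨k', h4, by linarith⟩

theorem grow' {y : ℕ → ℝ} (hy : Seq y) {k : ℕ} (hk : Good y k) (N : ℕ) :
    ∃ k', Good y k' ∧ (5 / 4) ^ N * W y k ≤ W y k' := by
  induction N with
  | zero => exact ⟨k, hk, by simp⟩
  | succ N ih =>
    obtain ⟨k', h1, h2⟩ := ih
    obtain ⟨m, hm⟩ := pow_unbounded_of_one_lt (y (k' + 1) * 5000) (show (1 : ℝ) < 4 / 3 by norm_num)
    obtain ⟨k'', h3, h4⟩ := grow hy m k' h1 (by linarith)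
    refine ⟨k'', h3, ?_⟩
    rw [pow_succ]
    linarith

theorem unbounded {y : ℕ → ℝ} (hy : Seq y) {k : ℕ} (hk : Good y k) :
    ¬ ∃ M : ℝ, ∀ n, y n ≤ M := by
  rintro ⟨M, hM⟩
  have hM0 : 0 < M := lt_of_lt_of_le (hy.pos 0) (hM 0)
  obtain ⟨N, hN⟩ := pow_unbounded_of_one_lt (M * 10000) (show (1 : ℝ) < 5 / 4 by norm_num)
  obtain ⟨k', h1, h2⟩ := grow' hy hk N
  have hWk := hk.w1
  have h3 : (5 / 4 : ℝ) ^ N * 1 ≤ (5 / 4) ^ N * W y k :=
    mul_le_mul_of_nonneg_left (by linarith) (by positivity)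
  have h4 : W y k' ≤ M * 10000 := by
    have h5 : 3 / 4 / y (k' + 1) ≤ 9999 := by
      rw [div_le_iff₀ (hy.pos _)]
      have := h1.a1
      linarith
    have h6 : W y k' ≤ y (k' + 2) * 10000 :=
      mul_le_mul_of_nonneg_left (by linarith) (hy.pos _).le
    have h7 := hM (k' + 2)
    linarith
  linarith

end C312

/-- The coefficients of the case. -/
noncomputable def b312 : Fin 5 → ℝ := ![1 / 2, 1, 0, 0, 0]

/-- The coefficients of the case. -/
noncomputable def B312 : Fin 5 → ℝ := ![0, 0, 1, 1, 0]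

theorem unb_3_12 : ¬ BoundedOnly (fs 3) (fs 12) := by
  intro hB
  have hb : SupportedOn b312 (fs 3) := by
    constructor
    · intro i hi
      have : i = 0 ∨ i = 1 := by
        revert hi
        revert i
        decide
      rcases this with rfl | rfl <;> simp [b312]
    · intro i hi
      have : i = 2 ∨ i = 3 ∨ i = 4 := by
        revert hi
        revert i
        decide
      rcases this with rfl | rfl | rfl <;> simp [b312]
  have hB' : SupportedOn B312 (fs 12) := by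
    constructor
    · intro i hi
      have : i = 2 ∨ i = 3 := by
        revert hi
        revert i
        decide
      rcases this with rfl | rfl <;> simp [B312]
    · intro i hi
      have : i = 0 ∨ i = 1 ∨ i = 4 := by
        revert hi
        revert i
        decide
      rcases this with rfl | rfl | rfl <;> simp [B312]
  obtain ⟨x, hx, hx', h0, h1, h2, h3⟩ := exists_pos_sol86 hb hB' (by decide) (by decide)
    (s0 := 1) (s1 := 1 / 10 ^ 13) (s2 := 1) (s3 := 10 ^ 13) (by norm_num) (by norm_num)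
    (by norm_num) (by norm_num)
  obtain ⟨M, hM⟩ := hB _ _ hb hB' x hx'
  have hy : C312.Seq (fun n => x (n + 1)) := by
    refine ⟨fun n => hx.pos _, fun n => ?_⟩
    have hs := hx.step n
    have hd : lin B312 x n = x (n + 2) + x (n + 1) := by
      simp [lin, B312]
    have hn : lin b312 x n = 1 / 2 + x (n + 3) := by
      simp [lin, b312]
    rw [hd, hn, eq_div_iff (by have := hx.pos (n + 1); have := hx.pos (n + 2); positivity)] at hs
    exact hs
  refine C312.unbounded hy (k := 0) ?_ ⟨M, fun n => hM _⟩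
  refine ⟨?_, ?_, ?_, ?_, ?_⟩
  · simp only [C312.R, h1, h2, h3]
    norm_num
  · simp only [C312.R, h1, h2, h3]
    norm_num
  · simp only [h2]
    norm_num
  · simp only [h2, h3]
    norm_num
  · simp only [C312.W, h2, h3]
    norm_num

end Pool.Agent.RatRec
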