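import Mathlib

/-!
The case `x_n = (1/2 + x_{n-1}) / (x_{n-2} + x_{n-3})`: the inequality over one period.
-/

set_option autoImplicit false

namespace Pool.Agent.RatRec.C312

/-- One step in terms of the ratio `r = x z / y`. -/
theorem rstep {x y z t : ℝ} (hx : 0 < x) (hy : 0 < y) (h : t * (y + z) = 1 / 2 + x) :
    (t * y / x) * (x + x * z / y) = x + 1 / 2 := by
  have e : (t * y / x) * (x + x * z / y) = t * (y + z) := by
    field_simp
  rw [e, h]
  ring

theorem rbound {x r r' : ℝ} (hx : 0 < x) (hr : 1 / 2 ≤ r) (hr1 : r ≤ 1)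
    (h : r' * (x + r) = x + 1 / 2) : 1 / 2 ≤ r' ∧ r' ≤ 1 ∧ (1 - r') * x ≤ 1 / 2 := by
  have hp : 0 < x + r := by linarith
  have e : r' = (x + 1 / 2) / (x + r) := by
    rw [eq_div_iff hp.ne']
    exact h
  have h1 : 1 / 2 ≤ r' := by
    rw [e, le_div_iff₀ hp]
    linarith
  have h2 : r' ≤ 1 := by
    rw [e, div_le_one hp]
    linarith
  refine ⟨h1, h2, ?_⟩
  have h3 : 0 ≤ (1 - r') * r := mul_nonneg (by linarith) (by linarith)
  nlinarith

/-- The inequality for the sixth ratio and the final polynomial inequality. -/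
theorem final_ineq {u a d v r6 : ℝ} (ha : 0 < a) (hu1 : a / 2 ≤ u) (hu2 : u ≤ a)
    (hd0 : 0 ≤ d) (hd : d * (1 + a) ^ 2 ≤ a / 1000) (hv0 : 0 ≤ v)
    (hv : v * (1 + a) ^ 2 ≤ a ^ 2 / 900) (hr6 : r6 * (1 + 2 * u) ≤ 1 + u + v * (3 + 2 * u)) :
    (1 + 3 * d) * ((u + r6) * (u + 3 / 8)) ≤ (u + 1 / 2) * (u + 3 / 4) := by
  have hu : 0 < u := by linarith
  have h12 : 0 < 1 + 2 * u := by linarith
  have hsq : (1 + u) ^ 2 ≤ (1 + a) ^ 2 := by nlinarith
  -- the size of the errors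
  have hd1 : d * (1 + u) ^ 2 ≤ u / 500 := by
    have := mul_le_mul_of_nonneg_left hsq hd0
    linarith
  have hv1 : v * (1 + u) ^ 2 ≤ u ^ 2 / 225 := by
    have h1 := mul_le_mul_of_nonneg_left hsq hv0
    have h2 : a ^ 2 ≤ (2 * u) ^ 2 := by nlinarith
    linarith
  have hv2 : v ≤ 1 := by
    have h1 : u ^ 2 ≤ (1 + u) ^ 2 := by nlinarith
    have h2 : v * (1 + u) ^ 2 ≤ (1 + u) ^ 2 := by linarith [sq_nonneg u]
    have h3 : 0 < (1 + u) ^ 2 := by positivity
    exact le_of_mul_le_mul_right (by linarith) h3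
  have key : (1 + 3 * d) * ((u * (1 + 2 * u) + (1 + u + v * (3 + 2 * u))) * (u + 3 / 8)) ≤
      (u + 1 / 2) * (u + 3 / 4) * (1 + 2 * u) := by
    have e1 : (u + 1 / 2) * (u + 3 / 4) * (1 + 2 * u) =
        (2 * u ^ 2 + 2 * u + 1) * (u + 3 / 8) + u * (3 * u + 1) / 4 := by ring
    have e2 : (1 + 3 * d) * ((u * (1 + 2 * u) + (1 + u + v * (3 + 2 * u))) * (u + 3 / 8)) =
        (2 * u ^ 2 + 2 * u + 1) * (u + 3 / 8) + v * ((3 + 2 * u) * (u + 3 / 8)) +
        3 * d * ((2 * u ^ 2 + 2 * u + 1 + v * (3 + 2 * u)) * (u + 3 / 8)) := by ring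
    rw [e1, e2]
    have t1 : v * ((3 + 2 * u) * (u + 3 / 8)) ≤ v * (3 * (1 + u) ^ 2) := by
      apply mul_le_mul_of_nonneg_left _ hv0
      nlinarith
    have t2 : (2 * u ^ 2 + 2 * u + 1 + v * (3 + 2 * u)) * (u + 3 / 8) ≤
        (5 * (1 + u) ^ 2) * (1 + u) := by
      apply mul_le_mul _ (by linarith) (by linarith) (by positivity)
      have : v * (3 + 2 * u) ≤ 1 * (3 + 2 * u) := mul_le_mul_of_nonneg_right hv2 (by linarith)
      nlinarith
    have t3 : 3 * d * ((2 * u ^ 2 + 2 * u + 1 + v * (3 + 2 * u)) * (u + 3 / 8)) ≤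
        3 * d * ((5 * (1 + u) ^ 2) * (1 + u)) := mul_le_mul_of_nonneg_left t2 (by linarith)
    have t4 : 3 * d * ((5 * (1 + u) ^ 2) * (1 + u)) = 15 * (d * (1 + u) ^ 2) * (1 + u) := by ring
    have t5 : 15 * (d * (1 + u) ^ 2) * (1 + u) ≤ 15 * (u / 500) * (1 + u) := by
      apply mul_le_mul_of_nonneg_right _ (by linarith)
      linarith
    nlinarith
  have h3 : (u + r6) * (1 + 2 * u) ≤ u * (1 + 2 * u) + (1 + u + v * (3 + 2 * u)) := by
    nlinarith
  have h4 : (1 + 3 * d) * ((u + r6) * (u + 3 / 8)) * (1 + 2 * u) ≤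
      (1 + 3 * d) * ((u * (1 + 2 * u) + (1 + u + v * (3 + 2 * u))) * (u + 3 / 8)) := by
    have h5 : (u + r6) * (1 + 2 * u) * (u + 3 / 8) ≤
        (u * (1 + 2 * u) + (1 + u + v * (3 + 2 * u))) * (u + 3 / 8) :=
      mul_le_mul_of_nonneg_right h3 (by linarith)
    calc (1 + 3 * d) * ((u + r6) * (u + 3 / 8)) * (1 + 2 * u) =
        (1 + 3 * d) * ((u + r6) * (1 + 2 * u) * (u + 3 / 8)) := by ring
      _ ≤ _ := mul_le_mul_of_nonneg_left h5 (by linarith)
  exact le_of_mul_le_mul_right (h4.trans key) h12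

theorem mul_le_one' {a b : ℝ} (ha : 0 ≤ a) (ha1 : a ≤ 1) (hb1 : b ≤ 1) : a * b ≤ 1 := by
  have : a * b ≤ a * 1 := mul_le_mul_of_nonneg_left hb1 ha
  linarith

/-- The bound of the sixth ratio. -/
theorem r6_bound {P Q u v r3 r4 r6 : ℝ} (hv0 : 0 ≤ v) (hv1 : v ≤ 1) (hu : 0 < u)
    (hPlo : 1 / 2 ≤ P) (hPhi : P ≤ 1 / 2 + v / 2) (hQlo : 1 / 2 ≤ Q) (hPQ : P * r4 = Q * r6)
    (h60 : 0 ≤ r6) (h61 : r6 ≤ 1) (hr3 : 1 - v / 2 ≤ r3) (hr30 : 0 ≤ r3)
    (h4u : r4 * (P + r3 * u) = P + u / 2) :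
    r6 * (1 + 2 * u) ≤ 1 + u + v * (3 + 2 * u) := by
  have h1 : r6 * (P + r3 * u) ≤ 2 * P * (P + u / 2) := by
    have h2 : r6 ≤ 2 * (P * r4) := by
      rw [hPQ]
      have : 1 / 2 * r6 ≤ Q * r6 := mul_le_mul_of_nonneg_right hQlo h60
      linarith
    have h3 : r6 * (P + r3 * u) ≤ 2 * (P * r4) * (P + r3 * u) :=
      mul_le_mul_of_nonneg_right h2 (by positivity)
    have h5 : 2 * (P * r4) * (P + r3 * u) = 2 * P * (r4 * (P + r3 * u)) := by ring
    rw [h5, h4u] at h3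
    exact h3
  have h2 : r6 * (1 / 2 + (1 - v / 2) * u) ≤ r6 * (P + r3 * u) := by
    apply mul_le_mul_of_nonneg_left _ h60
    have : (1 - v / 2) * u ≤ r3 * u := mul_le_mul_of_nonneg_right hr3 hu.le
    linarith
  have h3 : 2 * P * (P + u / 2) ≤ (1 + v) * (1 / 2 + v / 2 + u / 2) := by
    apply mul_le_mul (by linarith) (by linarith) (by positivity) (by linarith)
  have h6 : r6 * (v * u) ≤ 1 * (v * u) := mul_le_mul_of_nonneg_right h61 (by positivity)
  have h7 : v * v ≤ v * 1 := mul_le_mul_of_nonneg_left hv1 hv0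
  have e1 : r6 * (1 / 2 + (1 - v / 2) * u) = (r6 * (1 + 2 * u) - r6 * (v * u)) / 2 := by ring
  have e2 : (1 + v) * (1 / 2 + v / 2 + u / 2) = (1 + 2 * v + v * v + u + v * u) / 2 := by ring
  rw [e1] at h2
  rw [e2] at h3
  have e3 : v * (3 + 2 * u) = 3 * v + 2 * (v * u) := by ring
  rw [e3]
  linarith

/-- The period map: the functional does not decrease. -/
theorem core {a X r1 r2 r3 r4 r5 r6 r7 x2 x3 x4 x5 x6 x7 : ℝ}
    (ha : 0 < a) (hX : 0 < X) (p2 : 0 < x2) (p3 : 0 < x3) (p4 : 0 < x4) (p5 : 0 < x5)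
    (p6 : 0 < x6) (p7 : 0 < x7)
    (hr1 : 1 / 2 ≤ r1) (hr1' : r1 ≤ 1)
    (e2 : r2 * (X + r1) = X + 1 / 2) (f2 : x2 * a = r2 * X)
    (e3 : r3 * (x2 + r2) = x2 + 1 / 2) (f3 : x3 * a = r3 * r2)
    (e4 : r4 * (x3 + r3) = x3 + 1 / 2) (f4 : x4 * X = r4 * r3)
    (e5 : r5 * (x4 + r4) = x4 + 1 / 2) (f5 : x5 * x2 = r5 * r4)
    (e6 : r6 * (x5 + r5) = x5 + 1 / 2) (f6 : x6 * x3 = r6 * r5)
    (e7 : r7 * (x6 + r6) = x6 + 1 / 2) (f7 : x7 * x4 = r7 * r6)
    (hK : 1000 * (1 + a) ^ 2 ≤ X * a) :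
    X * (1 + 3 / 4 / a) ≤ x7 * (1 + 3 / 4 / x6) ∧ a / 2 ≤ x6 ∧ x6 ≤ 3 / 4 * a ∧
      (1 ≤ x6 → X * x6 ≤ x7 * a) := by
  obtain ⟨a2, b2, c2⟩ := rbound hX hr1 hr1' e2
  obtain ⟨a3, b3, c3⟩ := rbound p2 a2 b2 e3
  obtain ⟨a4, b4, c4⟩ := rbound p3 a3 b3 e4
  obtain ⟨a5, b5, c5⟩ := rbound p4 a4 b4 e5
  obtain ⟨a6, b6, c6⟩ := rbound p5 a5 b5 e6
  obtain ⟨a7, b7, c7⟩ := rbound p6 a6 b6 e7
  -- small numbers
  have hX4 : 4000 ≤ X := by
    have h1 : 4000 * a ≤ X * a := by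
      have : 1000 * (1 + a) ^ 2 = 4000 * a + 1000 * (1 - a) ^ 2 := by ring
      have := sq_nonneg (1 - a)
      linarith
    exact le_of_mul_le_mul_right h1 ha
  obtain ⟨d, hd⟩ : ∃ d : ℝ, d = 1 / X := ⟨_, rfl⟩
  have hdX : d * X = 1 := by rw [hd]; field_simp
  have hd0 : 0 < d := by rw [hd]; positivity
  have hd1 : d ≤ 1 / 4000 := by
    rw [hd]
    exact one_div_le_one_div_of_le (by norm_num) hX4
  obtain ⟨v, hv⟩ : ∃ v : ℝ, v = 1 / x2 := ⟨_, rfl⟩
  have hvx : v * x2 = 1 := by rw [hv]; field_simp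
  have hv0 : 0 < v := by rw [hv]; positivity
  have hr2 : 1 - d / 2 ≤ r2 := by
    have h1 : (1 - r2) * X * d ≤ 1 / 2 * d := mul_le_mul_of_nonneg_right c2 hd0.le
    have h2 : (1 - r2) * X * d = (1 - r2) * (d * X) := by ring
    rw [h2, hdX] at h1
    linarith
  have hr3 : 1 - v / 2 ≤ r3 := by
    have h1 : (1 - r3) * x2 * v ≤ 1 / 2 * v := mul_le_mul_of_nonneg_right c3 hv0.le
    have h2 : (1 - r3) * x2 * v = (1 - r3) * (v * x2) := by ring
    rw [h2, hvx] at h1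
    linarith
  have hdA : d * (1 + a) ^ 2 ≤ a / 1000 := by
    have h1 : 1000 * (1 + a) ^ 2 * d ≤ X * a * d := mul_le_mul_of_nonneg_right hK hd0.le
    have h2 : X * a * d = a * (d * X) := by ring
    rw [h2, hdX] at h1
    linarith
  have hvX : v * (r2 * X) = a := by
    rw [← f2]
    have : v * (x2 * a) = (v * x2) * a := by ring
    rw [this, hvx, one_mul]
  have hvA : v * (1 + a) ^ 2 ≤ a ^ 2 / 900 := by
    have h1 : 1000 * (1 + a) ^ 2 * (v * r2) ≤ X * a * (v * r2) :=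
      mul_le_mul_of_nonneg_right hK (by positivity)
    have h2 : X * a * (v * r2) = a * (v * (r2 * X)) := by ring
    rw [h2, hvX] at h1
    have h3 : 9 / 10 ≤ r2 := by linarith
    have h4 : v * (1 + a) ^ 2 * (9 / 10) ≤ v * (1 + a) ^ 2 * r2 :=
      mul_le_mul_of_nonneg_left h3 (by positivity)
    have h5 : 1000 * (1 + a) ^ 2 * (v * r2) = 1000 * (v * (1 + a) ^ 2 * r2) := by ring
    have h6 : a * a = a ^ 2 := by ring
    rw [h5, h6] at h1
    linarith
  have hv1 : v ≤ 1 / 900 := by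
    have h1 : a ^ 2 ≤ (1 + a) ^ 2 := pow_le_pow_left₀ ha.le (by linarith) 2
    have h2 : v * (1 + a) ^ 2 ≤ 1 / 900 * (1 + a) ^ 2 := by linarith
    exact le_of_mul_le_mul_right h2 (by positivity)
  -- products
  set Q := r5 * r4 with hQ
  set P := r6 * r5 with hP
  have x4d : x4 ≤ d := by
    have h1 : x4 * X * d ≤ 1 * d := by
      apply mul_le_mul_of_nonneg_right _ hd0.le
      rw [f4]
      exact mul_le_one' (by linarith) b4 b3
    have h2 : x4 * X * d = x4 * (d * X) := by ring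
    rw [h2, hdX] at h1
    linarith
  have x5v : x5 ≤ v := by
    have h1 : x5 * x2 * v ≤ 1 * v := by
      apply mul_le_mul_of_nonneg_right _ hv0.le
      rw [f5, hQ]
      exact mul_le_one' (by linarith) b5 b4
    have h2 : x5 * x2 * v = x5 * (v * x2) := by ring
    rw [h2, hvx] at h1
    linarith
  have hQ1 : Q = 1 / 2 + x4 * (1 - r5) := by rw [hQ]; linarith
  have hP1 : P = 1 / 2 + x5 * (1 - r6) := by rw [hP]; linarith
  have hQlo : 1 / 2 ≤ Q := by
    rw [hQ1]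
    have : 0 ≤ x4 * (1 - r5) := mul_nonneg p4.le (by linarith)
    linarith
  have hQhi : Q ≤ 1 / 2 + d / 2 := by
    rw [hQ1]
    have : x4 * (1 - r5) ≤ d * (1 / 2) := mul_le_mul x4d (by linarith) (by linarith) hd0.le
    linarith
  have hPlo : 1 / 2 ≤ P := by
    rw [hP1]
    have : 0 ≤ x5 * (1 - r6) := mul_nonneg p5.le (by linarith)
    linarith
  have hPhi : P ≤ 1 / 2 + v / 2 := by
    rw [hP1]
    have : x5 * (1 - r6) ≤ v * (1 / 2) := mul_le_mul x5v (by linarith) (by linarith) hv0.le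
    linarith
  have hPQ : P * r4 = Q * r6 := by rw [hP, hQ]; ring
  have hu : x6 * (r3 * r2) = P * a := by
    rw [← f3]
    have : x6 * (x3 * a) = (x6 * x3) * a := by ring
    rw [this, f6]
  set u := x6 with hu'
  have hr32 : 9 / 10 ≤ r3 * r2 := by
    have h1 : (99 / 100 : ℝ) * (99 / 100) ≤ r3 * r2 :=
      mul_le_mul (by linarith) (by linarith) (by norm_num) (by linarith)
    linarith
  have hr32' : r3 * r2 ≤ 1 := mul_le_one' (by linarith) b3 b2
  have hu1 : a / 2 ≤ u := by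
    have h1 : 1 / 2 * a ≤ P * a := mul_le_mul_of_nonneg_right hPlo ha.le
    have h2 : u * (r3 * r2) ≤ u * 1 := mul_le_mul_of_nonneg_left hr32' p6.le
    linarith
  have hu2 : u ≤ 3 / 4 * a := by
    have h1 : P * a ≤ (1 / 2 + v / 2) * a := mul_le_mul_of_nonneg_right hPhi ha.le
    have h2 : u * (9 / 10) ≤ u * (r3 * r2) := mul_le_mul_of_nonneg_left hr32 p6.le
    have h3 : v * a ≤ 1 / 900 * a := mul_le_mul_of_nonneg_right hv1 ha.le
    have h4 : (1 / 2 + v / 2) * a = a / 2 + v * a / 2 := by ring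
    linarith
  -- the ratio r6
  have h4u : r4 * (P + r3 * u) = P + u / 2 := by
    have h1 : r4 * (x3 * u + r3 * u) = x3 * u + u / 2 := by
      calc r4 * (x3 * u + r3 * u) = (r4 * (x3 + r3)) * u := by ring
        _ = (x3 + 1 / 2) * u := by rw [e4]
        _ = _ := by ring
    have h2 : x3 * u = P := by rw [mul_comm, f6]
    rw [h2] at h1
    exact h1
  have hr6 : r6 * (1 + 2 * u) ≤ 1 + u + v * (3 + 2 * u) :=
    r6_bound hv0.le (by linarith) p6 hPlo hPhi hQlo hPQ (by linarith) b6 hr3 (by linarith) h4u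
  have hfin := final_ineq ha hu1 (by linarith) hd0.le hdA hv0.le hvA hr6
  -- the functional
  have hx7 : x7 * (r4 * r3) = r7 * r6 * X := by
    rw [← f4]
    have : x7 * (x4 * X) = (x7 * x4) * X := by ring
    rw [this, f7]
  have hmain : u * (r2 * r3 * r4) + 3 / 4 * (P * r4) ≤ r7 * r6 * (u + 3 / 4) * r2 := by
    have hur6 : 0 < u + r6 := by linarith
    apply le_of_mul_le_mul_right _ hur6
    have g1 : r7 * r6 * (u + 3 / 4) * r2 * (u + r6) = (u + 1 / 2) * (u + 3 / 4) * r2 * r6 := by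
      calc r7 * r6 * (u + 3 / 4) * r2 * (u + r6) = (r7 * (u + r6)) * ((u + 3 / 4) * r2 * r6) := by
            ring
        _ = _ := by rw [e7]; ring
    rw [g1]
    -- bound of r4
    have hr4 : r4 ≤ (1 + d) * r6 := by
      have h1 : 1 / 2 * r4 ≤ P * r4 := mul_le_mul_of_nonneg_right hPlo (by linarith)
      rw [hPQ] at h1
      have h2 : Q * r6 ≤ (1 / 2 + d / 2) * r6 := mul_le_mul_of_nonneg_right hQhi (by linarith)
      have h3 : (1 / 2 + d / 2) * r6 = (1 + d) * r6 / 2 := by ring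
      linarith
    have g2 : u * (r2 * r3 * r4) ≤ u * r2 * ((1 + d) * r6) := by
      have h1 : r3 * r4 ≤ 1 * ((1 + d) * r6) := mul_le_mul b3 hr4 (by linarith) (by norm_num)
      have h2 : u * r2 * (r3 * r4) ≤ u * r2 * (1 * ((1 + d) * r6)) :=
        mul_le_mul_of_nonneg_left h1 (by positivity)
      calc u * (r2 * r3 * r4) = u * r2 * (r3 * r4) := by ring
        _ ≤ u * r2 * (1 * ((1 + d) * r6)) := h2
        _ = _ := by ring
    have g3 : 3 / 4 * (P * r4) ≤ 3 / 8 * (1 + d) * r6 := by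
      rw [hPQ]
      have : Q * r6 ≤ (1 / 2 + d / 2) * r6 := mul_le_mul_of_nonneg_right hQhi (by linarith)
      linarith
    have g4 : u * r2 + 3 / 8 ≤ r2 * ((1 + d) * (u + 3 / 8)) := by
      have h1 : 1 ≤ r2 * (1 + d) := by
        have h2 : (1 - d / 2) * (1 + d) ≤ r2 * (1 + d) :=
          mul_le_mul_of_nonneg_right hr2 (by linarith)
        have h3 : (1 - d / 2) * (1 + d) = 1 + d / 2 - d * d / 2 := by ring
        have h4 : d * d ≤ 1 * d := mul_le_mul_of_nonneg_right (by linarith) hd0.le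
        linarith
      have h3 : 0 ≤ u * r2 * d := by positivity
      have h4 : r2 * ((1 + d) * (u + 3 / 8)) = u * r2 + u * r2 * d + 3 / 8 * (r2 * (1 + d)) := by
        ring
      linarith
    have g5 : u * (r2 * r3 * r4) + 3 / 4 * (P * r4) ≤
        (1 + d) * r6 * (r2 * ((1 + d) * (u + 3 / 8))) := by
      have h1 : (1 + d) * r6 * (u * r2 + 3 / 8) ≤
          (1 + d) * r6 * (r2 * ((1 + d) * (u + 3 / 8))) :=
        mul_le_mul_of_nonneg_left g4 (by positivity)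
      have h2 : (1 + d) * r6 * (u * r2 + 3 / 8) =
          u * r2 * ((1 + d) * r6) + 3 / 8 * (1 + d) * r6 := by ring
      linarith
    have g6 : (1 + d) * (1 + d) ≤ 1 + 3 * d := by
      have h4 : d * d ≤ 1 * d := mul_le_mul_of_nonneg_right (by linarith) hd0.le
      linarith
    calc (u * (r2 * r3 * r4) + 3 / 4 * (P * r4)) * (u + r6)
        ≤ (1 + d) * r6 * (r2 * ((1 + d) * (u + 3 / 8))) * (u + r6) :=
          mul_le_mul_of_nonneg_right g5 hur6.le
      _ = ((1 + d) * (1 + d)) * ((u + r6) * (u + 3 / 8)) * (r2 * r6) := by ring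
      _ ≤ (1 + 3 * d) * ((u + r6) * (u + 3 / 8)) * (r2 * r6) := by
          apply mul_le_mul_of_nonneg_right _ (by positivity)
          exact mul_le_mul_of_nonneg_right g6 (by positivity)
      _ ≤ (u + 1 / 2) * (u + 3 / 4) * (r2 * r6) :=
          mul_le_mul_of_nonneg_right hfin (by positivity)
      _ = _ := by ring
  refine ⟨?_, hu1, hu2, ?_⟩
  · -- X (1 + 3/4/a) ≤ x7 (1 + 3/4/u)
    have hpos : 0 < u * (r4 * r3) * (r2) := by positivity
    have k1 : X * (1 + 3 / 4 / a) * (u * (r4 * r3) * r2) =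
        X * (u * (r2 * r3 * r4) + 3 / 4 * (P * r4)) := by
      have : 3 / 4 / a * (u * (r4 * r3) * r2) = 3 / 4 * (P * r4) := by
        have h1 : u * (r4 * r3) * r2 = (u * (r3 * r2)) * r4 := by ring
        rw [h1, hu]
        field_simp
      calc X * (1 + 3 / 4 / a) * (u * (r4 * r3) * r2) =
          X * (u * (r2 * r3 * r4) + 3 / 4 / a * (u * (r4 * r3) * r2)) := by ring
        _ = _ := by rw [this]
    have k2 : x7 * (1 + 3 / 4 / u) * (u * (r4 * r3) * r2) =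
        X * (r7 * r6 * (u + 3 / 4) * r2) := by
      have h1 : x7 * (1 + 3 / 4 / u) * (u * (r4 * r3) * r2) =
          (x7 * (r4 * r3)) * (u * (1 + 3 / 4 / u)) * r2 := by ring
      have h2 : u * (1 + 3 / 4 / u) = u + 3 / 4 := by field_simp
      rw [h1, h2, hx7]
      ring
    apply le_of_mul_le_mul_right _ hpos
    rw [k1, k2]
    exact mul_le_mul_of_nonneg_left hmain hX.le
  · intro hu3
    -- x7 a = X u r7 r2 / Q
    have k1 : x7 * a * Q = X * u * (r7 * r2) := by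
      have hr4p : (0 : ℝ) < r4 * r3 := by positivity
      have hr6p : (0 : ℝ) < r6 := by linarith
      have h1 : x7 * a * Q * (r4 * r3) * r6 = X * u * (r7 * r2) * (r4 * r3) * r6 := by
        calc x7 * a * Q * (r4 * r3) * r6 = (x7 * (r4 * r3)) * a * (Q * r6) := by ring
          _ = (r7 * r6 * X) * a * (P * r4) := by rw [hx7, hPQ]
          _ = r7 * r6 * X * r4 * (P * a) := by ring
          _ = r7 * r6 * X * r4 * (u * (r3 * r2)) := by rw [hu]
          _ = _ := by ring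
      have h2 := mul_right_cancel₀ hr6p.ne' h1
      exact mul_right_cancel₀ hr4p.ne' h2
    have k2 : 3 / 4 ≤ r7 := by
      have h1 : r7 * (u + r6) ≤ r7 * (u + 1) := mul_le_mul_of_nonneg_left (by linarith) (by linarith)
      rw [e7] at h1
      have h2 : 3 / 4 * (u + 1) ≤ u + 1 / 2 := by linarith
      exact le_of_mul_le_mul_right (h2.trans h1) (by linarith)
    have k3 : Q ≤ r7 * r2 := by
      have h1 : (3 / 4 : ℝ) * (99 / 100) ≤ r7 * r2 :=
        mul_le_mul k2 (by linarith) (by norm_num) (by linarith)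
      linarith
    have k4 : X * u * Q ≤ x7 * a * Q := by
      rw [k1]
      exact mul_le_mul_of_nonneg_left k3 (by positivity)
    exact le_of_mul_le_mul_right k4 (by linarith)

end Pool.Agent.RatRec.C312
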