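import Pool.Agent.Lib_helper86.RatU.C328a
import Pool.Agent.Lib_helper86.RatU.C312

/-!
The case `x_n = (1/10 + x_{n-1}) / (x_{n-2} + x_{n-3} + x_{n-4})` has unbounded solutions.
-/

set_option autoImplicit false

namespace Pool.Agent.RatRec

namespace C328

/-- The functional. -/
noncomputable def W (z : ℕ → ℝ) (k : ℕ) : ℝ := z (k + 4) * (1 + 3 / 4 / z (k + 3))

/-- The sequences considered. -/
structure Seq (z : ℕ → ℝ) : Prop where
  pos : ∀ n, 0 < z n
  step : ∀ n, z (n + 4) * (z (n + 2) + z (n + 1) + z n) = 1 / 10 + z (n + 3)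

/-- The good states. -/
structure Good (z : ℕ → ℝ) (k : ℕ) : Prop where
  a1 : 1 / 400000 ≤ z (k + 3)
  b1 : 8000 * z (k + 3) ≤ z (k + 4)
  w1 : 10 ^ 18 ≤ W z k

/-- For small `a` the functional bounds the next term. -/
theorem X_ge {z : ℕ → ℝ} (hz : Seq z) {k : ℕ} (ha : z (k + 3) ≤ 1) (hW : 10 ^ 18 ≤ W z k) :
    10 ^ 18 * z (k + 3) ≤ 7 / 4 * z (k + 4) := by
  have pa := hz.pos (k + 3)
  have pX := hz.pos (k + 4)
  have h1 : W z k * z (k + 3) = z (k + 4) * (z (k + 3) + 3 / 4) := by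
    simp only [W]
    field_simp
  have h2 : 10 ^ 18 * z (k + 3) ≤ W z k * z (k + 3) := mul_le_mul_of_nonneg_right hW pa.le
  rw [h1] at h2
  have h3 : z (k + 4) * (z (k + 3) + 3 / 4) ≤ z (k + 4) * (7 / 4) :=
    mul_le_mul_of_nonneg_left (by linarith) pX.le
  linarith

theorem cube_le {a : ℝ} (ha : 1 ≤ a) : 1000 * (1 + a) ^ 3 ≤ 8000 * a * a ^ 2 := by
  have h1 : (1 + a) ^ 3 ≤ (2 * a) ^ 3 := pow_le_pow_left₀ (by linarith) (by linarith) 3
  have h2 : (2 * a) ^ 3 = 8 * (a * a ^ 2) := by ring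
  rw [h2] at h1
  linarith

theorem stepA {z : ℕ → ℝ} (hz : Seq z) {k : ℕ} (h : Good z k) (ha : 1 / 20000 ≤ z (k + 3)) :
    Good z (k + 7) ∧ W z k ≤ W z (k + 7) ∧ z (k + 10) ≤ 3 / 4 * z (k + 3) := by
  have pa := hz.pos (k + 3)
  have pX := hz.pos (k + 4)
  have hK : 1000 * (1 + z (k + 3)) ^ 3 ≤ z (k + 4) * z (k + 3) ^ 2 := by
    rcases le_or_gt 1 (z (k + 3)) with h1 | h1
    · refine (cube_le h1).trans ?_
      exact mul_le_mul_of_nonneg_right h.b1 (by positivity)
    · have h2 := X_ge hz h1.le h.w1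
      have h3 : 10 ^ 18 * z (k + 3) * z (k + 3) ^ 2 ≤ 7 / 4 * z (k + 4) * z (k + 3) ^ 2 :=
        mul_le_mul_of_nonneg_right h2 (by positivity)
      have h4 : (1 / 20000 : ℝ) ^ 3 ≤ z (k + 3) ^ 3 := pow_le_pow_left₀ (by norm_num) ha 3
      have h5 : (1 + z (k + 3)) ^ 3 ≤ (2 : ℝ) ^ 3 :=
        pow_le_pow_left₀ (by linarith) (by linarith) 3
      have h6 : z (k + 3) * z (k + 3) ^ 2 = z (k + 3) ^ 3 := by ring
      have h7 : 10 ^ 18 * z (k + 3) * z (k + 3) ^ 2 = 10 ^ 18 * z (k + 3) ^ 3 := by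
        rw [mul_assoc, h6]
      rw [h7] at h3
      norm_num at h4 h5 ⊢
      linarith
  obtain ⟨c1, c2, c3, c4, _⟩ := core (a := z (k + 3)) (X := z (k + 4)) (y1 := z (k + 2))
    (y2 := z (k + 1)) (y3 := z k) (x2 := z (k + 5)) (x3 := z (k + 6)) (x4 := z (k + 7))
    (x5 := z (k + 8)) (x6 := z (k + 9)) (x7 := z (k + 10)) (x8 := z (k + 11))
    pa pX (hz.pos _) (hz.pos _) (hz.pos _) (hz.pos _) (hz.pos _) (hz.pos _) (hz.pos _)
    (hz.pos _) (hz.pos _) (hz.pos _) (hz.step k) (hz.step (k + 1)) (hz.step (k + 2))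
    (hz.step (k + 3)) (hz.step (k + 4)) (hz.step (k + 5)) (hz.step (k + 6)) (hz.step (k + 7)) hK
  have hW : W z k ≤ W z (k + 7) := c1
  have hW' : 10 ^ 18 ≤ W z (k + 7) := h.w1.trans hW
  have e1 : z (k + 7 + 3) = z (k + 10) := rfl
  have e2 : z (k + 7 + 4) = z (k + 11) := rfl
  refine ⟨⟨?_, ?_, hW'⟩, hW, by linarith⟩
  · rw [e1]
    linarith
  · rcases le_or_gt 1 (z (k + 10)) with h1 | h1
    · have h2 := c4 h1
      have h3 : 8000 * z (k + 3) * z (k + 10) ≤ z (k + 4) * z (k + 10) :=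
        mul_le_mul_of_nonneg_right h.b1 (hz.pos _).le
      rw [e1, e2]
      have h4 : 8000 * z (k + 10) * z (k + 3) ≤ z (k + 11) * z (k + 3) := by linarith
      exact le_of_mul_le_mul_right h4 pa
    · have h2 := X_ge hz (k := k + 7) h1.le hW'
      rw [e1, e2] at h2
      rw [e1, e2]
      have := hz.pos (k + 10)
      linarith

theorem stepB {z : ℕ → ℝ} (hz : Seq z) {k : ℕ} (h : Good z k) (ha : z (k + 3) ≤ 1 / 20000) :
    Good z (k + 1) ∧ 5 / 4 * W z k ≤ W z (k + 1) := by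
  have pa := hz.pos (k + 3)
  have pX := hz.pos (k + 4)
  have p3 := hz.pos (k + 5)
  have hX := X_ge hz (by linarith) h.w1
  have ha1 := h.a1
  have hX1 : 10 ^ 12 ≤ z (k + 4) := by
    norm_num at hX ⊢
    linarith
  have e1 : z (k + 1 + 3) = z (k + 4) := rfl
  have e2 : z (k + 1 + 4) = z (k + 5) := rfl
  -- the old terms are small
  have hy : z (k + 2) + z (k + 1) ≤ z (k + 3) / 100 := by
    have h1 := hz.step k
    have h2 : z (k + 4) * (z (k + 2) + z (k + 1)) ≤ 1 := by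
      have h3 : 0 < z (k + 4) * z k := mul_pos pX (hz.pos k)
      have h4 : z (k + 4) * (z (k + 2) + z (k + 1) + z k) =
        z (k + 4) * (z (k + 2) + z (k + 1)) + z (k + 4) * z k := by ring
      linarith
    have h5 : 10 ^ 12 * (z (k + 2) + z (k + 1)) ≤ z (k + 4) * (z (k + 2) + z (k + 1)) :=
      mul_le_mul_of_nonneg_right hX1 (add_pos (hz.pos _) (hz.pos _)).le
    norm_num at h5
    linarith
  have hY : z (k + 4) ≤ 101 / 100 * (z (k + 5) * z (k + 3)) := by
    have h1 := hz.step (k + 1)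
    have h2 : z (k + 5) * (z (k + 3) + z (k + 2) + z (k + 1)) ≤
        z (k + 5) * (101 / 100 * z (k + 3)) :=
      mul_le_mul_of_nonneg_left (by linarith) p3.le
    have h3 : z (k + 1 + 4) * (z (k + 1 + 2) + z (k + 1 + 1) + z (k + 1)) =
        z (k + 5) * (z (k + 3) + z (k + 2) + z (k + 1)) := rfl
    have h4 : z (k + 1 + 3) = z (k + 4) := rfl
    rw [h3, h4] at h1
    linarith
  have hb : 8000 * z (k + 4) ≤ z (k + 5) := by
    have h1 : z (k + 5) * z (k + 3) ≤ z (k + 5) * (1 / 20000) :=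
      mul_le_mul_of_nonneg_left ha p3.le
    linarith
  have hW1 : z (k + 5) ≤ W z (k + 1) := by
    have h1 : W z (k + 1) = z (k + 5) + z (k + 5) * (3 / 4 / z (k + 4)) := by
      simp only [W]
      rw [e1, e2]
      ring
    rw [h1]
    have : 0 ≤ z (k + 5) * (3 / 4 / z (k + 4)) := by positivity
    linarith
  have hW2 : 5 / 4 * W z k ≤ z (k + 5) := by
    have h1 : W z k * z (k + 3) = z (k + 4) * (z (k + 3) + 3 / 4) := by
      simp only [W]
      field_simp
    have h2 : 5 / 4 * W z k * z (k + 3) ≤ z (k + 5) * z (k + 3) := by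
      have h3 : z (k + 4) * (z (k + 3) + 3 / 4) ≤ z (k + 4) * (76 / 100) :=
        mul_le_mul_of_nonneg_left (by linarith) pX.le
      have h4 : 5 / 4 * W z k * z (k + 3) = 5 / 4 * (W z k * z (k + 3)) := by ring
      rw [h4, h1]
      linarith
    exact le_of_mul_le_mul_right h2 pa
  refine ⟨⟨?_, ?_, ?_⟩, hW2.trans hW1⟩
  · rw [e1]
    norm_num at hX1
    linarith
  · rw [e1, e2]
    exact hb
  · have h3 := h.w1
    have h4 := hW2.trans hW1
    have h5 : (0 : ℝ) ≤ W z k := le_trans (by norm_num) h3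
    linarith

theorem grow {z : ℕ → ℝ} (hz : Seq z) (m : ℕ) : ∀ k, Good z k →
    z (k + 3) ≤ (4 / 3) ^ m * (1 / 20000) → ∃ k', Good z k' ∧ 5 / 4 * W z k ≤ W z k' := by
  induction m with
  | zero =>
    intro k hk ha
    obtain ⟨h1, h2⟩ := stepB hz hk (by simpa using ha)
    exact ⟨k + 1, h1, h2⟩
  | succ m ih =>
    intro k hk ha
    rcases le_total (z (k + 3)) (1 / 20000) with h0 | h0
    · obtain ⟨h1, h2⟩ := stepB hz hk h0
      exact ⟨k + 1, h1, h2⟩
    · obtain ⟨h1, h2, h3⟩ := stepA hz hk h0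
      obtain ⟨k', h4, h5⟩ := ih (k + 7) h1 (by
        have e : z (k + 7 + 3) = z (k + 10) := rfl
        rw [e]
        rw [pow_succ] at ha
        linarith)
      exact ⟨k', h4, by linarith⟩

theorem grow' {z : ℕ → ℝ} (hz : Seq z) {k : ℕ} (hk : Good z k) (N : ℕ) :
    ∃ k', Good z k' ∧ (5 / 4) ^ N * W z k ≤ W z k' := by
  induction N with
  | zero => exact ⟨k, hk, by simp⟩
  | succ N ih =>
    obtain ⟨k', h1, h2⟩ := ih
    obtain ⟨m, hm⟩ := pow_unbounded_of_one_lt (z (k' + 3) * 20000)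
      (show (1 : ℝ) < 4 / 3 by norm_num)
    obtain ⟨k'', h3, h4⟩ := grow hz m k' h1 (by linarith)
    refine ⟨k'', h3, ?_⟩
    rw [pow_succ]
    linarith

theorem unbounded {z : ℕ → ℝ} (hz : Seq z) {k : ℕ} (hk : Good z k) :
    ¬ ∃ M : ℝ, ∀ n, z n ≤ M := by
  rintro ⟨M, hM⟩
  have hM0 : 0 < M := lt_of_lt_of_le (hz.pos 0) (hM 0)
  obtain ⟨N, hN⟩ := pow_unbounded_of_one_lt (M * 1000000) (show (1 : ℝ) < 5 / 4 by norm_num)
  obtain ⟨k', h1, h2⟩ := grow' hz hk N
  have hWk := hk.w1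
  have h3 : (5 / 4 : ℝ) ^ N * 1 ≤ (5 / 4) ^ N * W z k :=
    mul_le_mul_of_nonneg_left (by linarith) (by positivity)
  have h4 : W z k' ≤ M * 1000000 := by
    have h5 : 3 / 4 / z (k' + 3) ≤ 999999 := by
      rw [div_le_iff₀ (hz.pos _)]
      have := h1.a1
      linarith
    have h6 : W z k' ≤ z (k' + 4) * 1000000 :=
      mul_le_mul_of_nonneg_left (by linarith) (hz.pos _).le
    have h7 := hM (k' + 4)
    linarith
  linarith

end C328

/-- The coefficients of the case. -/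
noncomputable def b328 : Fin 5 → ℝ := ![1 / 10, 1, 0, 0, 0]

/-- The coefficients of the case. -/
noncomputable def B328 : Fin 5 → ℝ := ![0, 0, 1, 1, 1]

theorem unb_3_28 : ¬ BoundedOnly (fs 3) (fs 28) := by
  intro hB
  have hb : SupportedOn b328 (fs 3) := by
    constructor
    · intro i hi
      have : i = 0 ∨ i = 1 := by
        revert hi
        revert i
        decide
      rcases this with rfl | rfl <;> simp [b328]
    · intro i hi
      have : i = 2 ∨ i = 3 ∨ i = 4 := by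
        revert hi
        revert i
        decide
      rcases this with rfl | rfl | rfl <;> simp [b328]
  have hB' : SupportedOn B328 (fs 28) := by
    constructor
    · intro i hi
      have : i = 2 ∨ i = 3 ∨ i = 4 := by
        revert hi
        revert i
        decide
      rcases this with rfl | rfl | rfl <;> simp [B328]
    · intro i hi
      have : i = 0 ∨ i = 1 := by
        revert hi
        revert i
        decide
      rcases this with rfl | rfl <;> simp [B328]
  obtain ⟨x, hx, hx', h0, h1, h2, h3⟩ := exists_pos_sol86 hb hB' (by decide) (by decide)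
    (s0 := 1 / 10 ^ 20) (s1 := 1 / 10 ^ 20) (s2 := 1 / 10 ^ 20) (s3 := 1) (by norm_num)
    (by norm_num) (by norm_num) (by norm_num)
  obtain ⟨M, hM⟩ := hB _ _ hb hB' x hx'
  have hz : C328.Seq x := by
    refine ⟨fun n => hx.pos _, fun n => ?_⟩
    have hs := hx.step n
    have hd : lin B328 x n = x (n + 2) + x (n + 1) + x n := by
      simp [lin, B328]
    have hn : lin b328 x n = 1 / 10 + x (n + 3) := by
      simp [lin, b328]
    rw [hd, hn, eq_div_iff (by
      have := hx.pos n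
      have := hx.pos (n + 1)
      have := hx.pos (n + 2)
      positivity)] at hs
    exact hs
  have h4 : x 4 = 11 / 10 * (10 ^ 20 / 3) := by
    have h := hz.step 0
    simp only [zero_add] at h
    rw [h0, h1, h2, h3] at h
    norm_num at h ⊢
    linarith
  refine C328.unbounded hz (k := 0) ?_ ⟨M, hM⟩
  refine ⟨?_, ?_, ?_⟩
  · simp only [zero_add, h3]
    norm_num
  · simp only [zero_add, h3, h4]
    norm_num
  · simp only [C328.W, zero_add, h3, h4]
    norm_num

end Pool.Agent.RatRec
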