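import Mathlib

/-!
The case `x_n = (1/10 + x_{n-1}) / (x_{n-2} + x_{n-3} + x_{n-4})`: the inequality over one period.
-/

set_option autoImplicit false

namespace Pool.Agent.RatRec.C328

/-- The final polynomial inequality. -/
theorem final_ineq {a g t : ℝ} (ha : 0 < a) (hg0 : 0 ≤ g) (hg : g * (1 + a) ^ 2 ≤ a / 1000)
    (ht0 : 0 ≤ t) (ht : t * (1 + a) ≤ a / 1000) :
    (a + 3 / 4) * (a ^ 2 / 10 + 3 * a / 10 + 1) * (1 + 22 * g) ≤
      (1 + a) * ((1 + a) * (a / 10 + 3 / 4) - 3 / 10 * g * a ^ 2 - 3 / 4 * (4 * t + 4 * g)) := by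
  have e : (1 + a) * ((1 + a) * (a / 10 + 3 / 4) - 3 / 10 * g * a ^ 2 -
        3 / 4 * (4 * t + 4 * g)) -
      (a + 3 / 4) * (a ^ 2 / 10 + 3 * a / 10 + 1) * (1 + 22 * g) =
      (23 / 40 * a ^ 2 + 3 / 8 * a) - 3 / 10 * (g * ((1 + a) * a ^ 2)) - 3 * (t * (1 + a)) -
      3 * (g * (1 + a)) - 22 * (g * ((a + 3 / 4) * (a ^ 2 / 10 + 3 * a / 10 + 1))) := by
    ring
  have h1 : g * ((1 + a) * a ^ 2) ≤ g * (1 + a) ^ 2 * (1 + a) := by
    have : (1 + a) * a ^ 2 ≤ (1 + a) ^ 2 * (1 + a) := by nlinarith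
    calc g * ((1 + a) * a ^ 2) ≤ g * ((1 + a) ^ 2 * (1 + a)) := mul_le_mul_of_nonneg_left this hg0
      _ = _ := by ring
  have h2 : g * (1 + a) ≤ g * (1 + a) ^ 2 := by
    apply mul_le_mul_of_nonneg_left _ hg0
    nlinarith
  have h3 : g * ((a + 3 / 4) * (a ^ 2 / 10 + 3 * a / 10 + 1)) ≤ g * (1 + a) ^ 2 * (1 + a) := by
    have h4 : (a + 3 / 4) * (a ^ 2 / 10 + 3 * a / 10 + 1) ≤ (1 + a) * (1 + a) ^ 2 := by
      apply mul_le_mul (by linarith) _ (by positivity) (by linarith)
      nlinarith [sq_nonneg a]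
    calc g * ((a + 3 / 4) * (a ^ 2 / 10 + 3 * a / 10 + 1)) ≤ g * ((1 + a) * (1 + a) ^ 2) :=
          mul_le_mul_of_nonneg_left h4 hg0
      _ = _ := by ring
  have h5 : g * (1 + a) ^ 2 * (1 + a) ≤ a / 1000 * (1 + a) :=
    mul_le_mul_of_nonneg_right hg (by linarith)
  have h6 : a / 1000 * (1 + a) = a / 1000 + a ^ 2 / 1000 := by ring
  have h7 : 0 ≤ a ^ 2 := by positivity
  linarith

/-- The period map: the functional does not decrease. -/
theorem core {a X y1 y2 y3 x2 x3 x4 x5 x6 x7 x8 : ℝ} (ha : 0 < a) (hX : 0 < X)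
    (q1 : 0 < y1) (q2 : 0 < y2) (q3 : 0 < y3) (p2 : 0 < x2) (p3 : 0 < x3) (p4 : 0 < x4)
    (p5 : 0 < x5) (p6 : 0 < x6) (p7 : 0 < x7) (p8 : 0 < x8)
    (h1 : X * (y1 + y2 + y3) = 1 / 10 + a)
    (h2 : x2 * (a + y1 + y2) = 1 / 10 + X)
    (h3 : x3 * (X + a + y1) = 1 / 10 + x2)
    (h4 : x4 * (x2 + X + a) = 1 / 10 + x3)
    (h5 : x5 * (x3 + x2 + X) = 1 / 10 + x4)
    (h6 : x6 * (x4 + x3 + x2) = 1 / 10 + x5)
    (h7 : x7 * (x5 + x4 + x3) = 1 / 10 + x6)
    (h8 : x8 * (x6 + x5 + x4) = 1 / 10 + x7)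
    (hK : 1000 * (1 + a) ^ 3 ≤ X * a ^ 2) :
    X * (1 + 3 / 4 / a) ≤ x8 * (1 + 3 / 4 / x7) ∧ a / 20 ≤ x7 ∧ x7 ≤ a / 5 ∧
      (1 ≤ x7 → X * x7 ≤ x8 * a) ∧ X ≤ 2 * (x2 * a) := by
  -- small numbers
  obtain ⟨d, hd⟩ : ∃ d : ℝ, d = 1 / X := ⟨_, rfl⟩
  have hdX : d * X = 1 := by rw [hd]; field_simp
  have hd0 : 0 < d := by rw [hd]; positivity
  obtain ⟨e, he⟩ : ∃ e : ℝ, e = d / a := ⟨_, rfl⟩
  have hea : e * a = d := by rw [he]; field_simp
  have he0 : 0 < e := by rw [he]; positivity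
  obtain ⟨g, hg⟩ : ∃ g : ℝ, g = d + e := ⟨_, rfl⟩
  have hg0 : 0 < g := by rw [hg]; positivity
  have hdg : d ≤ g := by rw [hg]; linarith
  have heg : e ≤ g := by rw [hg]; linarith
  have hga : g * a = d * (1 + a) := by
    rw [hg]
    linarith
  obtain ⟨t, ht⟩ : ∃ t : ℝ, t = a * d := ⟨_, rfl⟩
  have ht0 : 0 < t := by rw [ht]; positivity
  have hKd : 1000 * (d * (1 + a) ^ 3) ≤ a ^ 2 := by
    have h : 1000 * (1 + a) ^ 3 * d ≤ X * a ^ 2 * d := mul_le_mul_of_nonneg_right hK hd0.le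
    have h' : X * a ^ 2 * d = a ^ 2 * (d * X) := by ring
    rw [h', hdX] at h
    linarith
  have hG2 : g * (1 + a) ^ 2 ≤ a / 1000 := by
    have h : g * (1 + a) ^ 2 * a ≤ a / 1000 * a := by
      have h' : g * (1 + a) ^ 2 * a = (g * a) * (1 + a) ^ 2 := by ring
      rw [h', hga]
      have h'' : d * (1 + a) * (1 + a) ^ 2 = d * (1 + a) ^ 3 := by ring
      rw [h'']
      have h3 : a / 1000 * a = a ^ 2 / 1000 := by ring
      rw [h3]
      linarith
    exact le_of_mul_le_mul_right h ha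
  have hg1 : g ≤ 1 / 4000 := by
    have h : a / 1000 ≤ 1 / 4000 * (1 + a) ^ 2 := by
      have := sq_nonneg (1 - a)
      have h' : (1 + a) ^ 2 = 4 * a + (1 - a) ^ 2 := by ring
      rw [h']
      linarith
    exact le_of_mul_le_mul_right (hG2.trans h) (by positivity)
  have hT1 : t * (1 + a) ≤ a / 1000 := by
    have h : t * (1 + a) * (1 + a) ^ 2 ≤ a / 1000 * (1 + a) ^ 2 := by
      have h' : t * (1 + a) * (1 + a) ^ 2 = a * (d * (1 + a) ^ 3) := by rw [ht]; ring
      rw [h']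
      have h3 : a * (1000 * (d * (1 + a) ^ 3)) ≤ a * a ^ 2 := mul_le_mul_of_nonneg_left hKd ha.le
      have h4 : a * a ^ 2 ≤ a * (1 + a) ^ 2 :=
        mul_le_mul_of_nonneg_left (pow_le_pow_left₀ ha.le (by linarith) 2) ha.le
      linarith
    exact le_of_mul_le_mul_right h (by positivity)
  have ht1 : t ≤ 1 / 1000 := by
    have h : t * (1 + a) ≤ 1 / 1000 * (1 + a) := by linarith
    exact le_of_mul_le_mul_right h (by linarith)
  have hX4 : 4000 ≤ X := by
    have h : d ≤ 1 / 4000 := by linarith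
    have h' : d * X ≤ 1 / 4000 * X := mul_le_mul_of_nonneg_right h hX.le
    rw [hdX] at h'
    linarith
  -- the old terms
  have s1 : y1 + y2 ≤ (1 / 10 + a) * d := by
    have h : X * (y1 + y2) ≤ 1 / 10 + a := by
      have : 0 < X * y3 := mul_pos hX q3
      have h' : X * (y1 + y2 + y3) = X * (y1 + y2) + X * y3 := by ring
      linarith
    have h' : X * (y1 + y2) * d ≤ (1 / 10 + a) * d := mul_le_mul_of_nonneg_right h hd0.le
    have h'' : X * (y1 + y2) * d = (y1 + y2) * (d * X) := by ring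
    rw [h'', hdX] at h'
    linarith
  have s1' : y1 ≤ (1 / 10 + a) * d := by linarith
  have had : (1 / 10 + a) * d = a * (d + e / 10) := by
    rw [← hea]
    ring
  -- x2
  have s2 : X ≤ x2 * a * (1 + g) := by
    have h : a + y1 + y2 ≤ a * (1 + g) := by
      rw [had] at s1
      have : a * (d + e / 10) ≤ a * g := mul_le_mul_of_nonneg_left (by rw [hg]; linarith) ha.le
      linarith
    have h' : x2 * (a + y1 + y2) ≤ x2 * (a * (1 + g)) := mul_le_mul_of_nonneg_left h p2.le
    linarith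
  have s2' : x2 * a ≤ 1 / 10 + X := by
    have : 0 < x2 * (y1 + y2) := by positivity
    linarith
  -- x3
  have hgX : 1 ≤ g * X := by
    have : d * X ≤ g * X := mul_le_mul_of_nonneg_right hdg hX.le
    linarith
  have s3 : x3 * a ≤ 1 + g := by
    have h : x3 * a * (X + a) ≤ (1 + g) * (X + a) := by
      have k1 : x3 * a * (X + a + y1) = a / 10 + x2 * a := by
        calc x3 * a * (X + a + y1) = (x3 * (X + a + y1)) * a := by ring
          _ = _ := by rw [h3]; ring
      have k2 : 0 < x3 * a * y1 := by positivity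
      have k3 : 0 < g * a := by positivity
      linarith
    exact le_of_mul_le_mul_right h (by linarith)
  have hsum : X * (1 + a) ≤ (x2 * a + X * a) * (1 + g) := by
    have : 0 < X * a * g := by positivity
    linarith
  -- x4
  have hg2 : (1 + g) * (1 + g) ≤ 1 + 3 * g := by
    have : g * g ≤ 1 * g := mul_le_mul_of_nonneg_right (by linarith) hg0.le
    linarith
  have s4 : X * x4 * (1 + a) ≤ (1 + a / 10) * (1 + 3 * g) := by
    have k1 : x4 * (x2 * a + X * a) ≤ (1 + a / 10) * (1 + g) := by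
      have k2 : x4 * (x2 * a + X * a + a ^ 2) = a / 10 + x3 * a := by
        calc x4 * (x2 * a + X * a + a ^ 2) = (x4 * (x2 + X + a)) * a := by ring
          _ = _ := by rw [h4]; ring
      have k3 : 0 < x4 * a ^ 2 := by positivity
      have k4 : 0 < a / 10 * g := by positivity
      linarith
    have k5 : x4 * (X * (1 + a)) ≤ x4 * ((x2 * a + X * a) * (1 + g)) :=
      mul_le_mul_of_nonneg_left hsum p4.le
    have k6 : x4 * (x2 * a + X * a) * (1 + g) ≤ (1 + a / 10) * (1 + g) * (1 + g) :=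
      mul_le_mul_of_nonneg_right k1 (by linarith)
    have k7 : (1 + a / 10) * ((1 + g) * (1 + g)) ≤ (1 + a / 10) * (1 + 3 * g) :=
      mul_le_mul_of_nonneg_left hg2 (by linarith)
    linarith
  have s4' : x4 ≤ 2 * d := by
    have k1 : X * x4 * (1 + a) ≤ 2 * (1 + a) := by
      have : (1 + a / 10) * (1 + 3 * g) ≤ (1 + a) * 2 :=
        mul_le_mul (by linarith) (by linarith) (by positivity) (by linarith)
      linarith
    have k2 : X * x4 ≤ 2 := le_of_mul_le_mul_right k1 (by linarith)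
    have k3 : X * x4 * d ≤ 2 * d := mul_le_mul_of_nonneg_right k2 hd0.le
    have k4 : X * x4 * d = x4 * (d * X) := by ring
    rw [k4, hdX] at k3
    linarith
  -- x5
  have s5 : X * x5 * (1 + a) ≤ a / 10 * (1 + 22 * g) := by
    have k1 : x5 * (x2 * a + X * a) ≤ a / 10 * (1 + 20 * g) := by
      have k2 : x5 * (x3 * a + x2 * a + X * a) = a / 10 + x4 * a := by
        calc x5 * (x3 * a + x2 * a + X * a) = (x5 * (x3 + x2 + X)) * a := by ring
          _ = _ := by rw [h5]; ring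
      have k3 : 0 < x5 * (x3 * a) := by positivity
      have k4 : x4 * a ≤ 2 * g * a := mul_le_mul_of_nonneg_right (by linarith) ha.le
      linarith
    have k5 : x5 * (X * (1 + a)) ≤ x5 * ((x2 * a + X * a) * (1 + g)) :=
      mul_le_mul_of_nonneg_left hsum p5.le
    have k6 : x5 * (x2 * a + X * a) * (1 + g) ≤ a / 10 * (1 + 20 * g) * (1 + g) :=
      mul_le_mul_of_nonneg_right k1 (by linarith)
    have k8 : (1 + 20 * g) * (1 + g) ≤ 1 + 22 * g := by
      have : g * g ≤ 1 / 4000 * g := mul_le_mul_of_nonneg_right hg1 hg0.le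
      linarith
    have k7 : a / 10 * ((1 + 20 * g) * (1 + g)) ≤ a / 10 * (1 + 22 * g) :=
      mul_le_mul_of_nonneg_left k8 (by linarith)
    linarith
  have s5' : x5 ≤ d := by
    have k1 : X * x5 * (1 + a) ≤ 1 * (1 + a) := by
      have : a / 10 * (1 + 22 * g) ≤ a / 10 * 2 :=
        mul_le_mul_of_nonneg_left (by linarith) (by linarith)
      linarith
    have k2 : X * x5 ≤ 1 := le_of_mul_le_mul_right k1 (by linarith)
    have k3 : X * x5 * d ≤ 1 * d := mul_le_mul_of_nonneg_right k2 hd0.le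
    have k4 : X * x5 * d = x5 * (d * X) := by ring
    rw [k4, hdX] at k3
    linarith
  -- x6
  have s6 : X * x6 ≤ a / 10 * (1 + 12 * g) := by
    have k1 : x6 * x2 ≤ 1 / 10 + d := by
      have : 0 < x6 * (x4 + x3) := by positivity
      linarith
    have k2 : x6 * X ≤ x6 * (x2 * a * (1 + g)) := mul_le_mul_of_nonneg_left s2 p6.le
    have k3 : x6 * x2 * (a * (1 + g)) ≤ (1 / 10 + d) * (a * (1 + g)) :=
      mul_le_mul_of_nonneg_right k1 (by positivity)
    have k4 : (1 / 10 + d) * (1 + g) ≤ 1 / 10 * (1 + 12 * g) := by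
      have h : (1 / 10 + d) * (1 + g) ≤ (1 / 10 + g) * (1 + g) :=
        mul_le_mul_of_nonneg_right (by linarith) (by linarith)
      have h' : g * g ≤ 1 / 4000 * g := mul_le_mul_of_nonneg_right hg1 hg0.le
      linarith
    have k5 : a * ((1 / 10 + d) * (1 + g)) ≤ a * (1 / 10 * (1 + 12 * g)) :=
      mul_le_mul_of_nonneg_left k4 ha.le
    linarith
  have s6' : 9 / 100 * t ≤ x6 := by
    have k1 : 1 / 10 * a ≤ x6 * (X + 2) := by
      have k2 : x6 * (x4 * a + x3 * a + x2 * a) = (1 / 10 + x5) * a := by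
        calc x6 * (x4 * a + x3 * a + x2 * a) = (x6 * (x4 + x3 + x2)) * a := by ring
          _ = _ := by rw [h6]
      have k3 : x4 * a ≤ 2 * t := by
        rw [ht]
        have : x4 * a ≤ 2 * d * a := mul_le_mul_of_nonneg_right s4' ha.le
        linarith
      have k4 : x4 * a + x3 * a + x2 * a ≤ X + 2 := by linarith
      have k5 : x6 * (x4 * a + x3 * a + x2 * a) ≤ x6 * (X + 2) :=
        mul_le_mul_of_nonneg_left k4 p6.le
      have k6 : 0 < x5 * a := by positivity
      linarith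
    have k2 : 1 / 10 * a * d ≤ x6 * (X + 2) * d := mul_le_mul_of_nonneg_right k1 hd0.le
    have k3 : x6 * (X + 2) * d = x6 * (d * X) + 2 * (x6 * d) := by ring
    rw [k3, hdX] at k2
    have k4 : x6 * d ≤ x6 * (1 / 4000) := mul_le_mul_of_nonneg_left (by linarith) p6.le
    rw [ht]
    linarith
  have s6'' : x6 ≤ 2 / 10 * t := by
    have k1 : X * x6 * d ≤ a / 10 * (1 + 12 * g) * d := mul_le_mul_of_nonneg_right s6 hd0.le
    have k2 : X * x6 * d = x6 * (d * X) := by ring
    rw [k2, hdX] at k1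
    have k3 : a / 10 * (1 + 12 * g) * d = t / 10 * (1 + 12 * g) := by rw [ht]; ring
    rw [k3] at k1
    have k4 : t / 10 * (1 + 12 * g) ≤ t / 10 * 2 :=
      mul_le_mul_of_nonneg_left (by linarith) (by linarith)
    linarith
  -- x7 from below
  have s7 : a / 10 ≤ x7 * (1 + 3 * g) := by
    have k1 : x7 * (x5 * a + x4 * a + x3 * a) = (1 / 10 + x6) * a := by
      calc x7 * (x5 * a + x4 * a + x3 * a) = (x7 * (x5 + x4 + x3)) * a := by ring
        _ = _ := by rw [h7]
    -- a (x4 + x5)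
    have k2 : x5 * a + x4 * a ≤ 2 * g + 3 / 10 * t := by
      have m1 : (X * x5 * (1 + a) + X * x4 * (1 + a)) ≤ 11 / 10 + 25 / 100 * a := by
        have n1 : a / 10 * (1 + 22 * g) ≤ a / 10 * (11 / 10) :=
          mul_le_mul_of_nonneg_left (by linarith) (by linarith)
        have n2 : (1 + a / 10) * (1 + 3 * g) ≤ (1 + a / 10) * (11 / 10) :=
          mul_le_mul_of_nonneg_left (by linarith) (by linarith)
        linarith
      have m2 : (x5 * a + x4 * a) * (1 + a) = (X * x5 * (1 + a) + X * x4 * (1 + a)) * t := by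
        have : (x5 * a + x4 * a) * (1 + a) = (x5 * a + x4 * a) * (1 + a) * (d * X) := by
          rw [hdX, mul_one]
        rw [this, ht]
        ring
      have m3 : (x5 * a + x4 * a) * (1 + a) ≤ (2 * g + 3 / 10 * t) * (1 + a) := by
        rw [m2]
        have n1 : (X * x5 * (1 + a) + X * x4 * (1 + a)) * t ≤ (11 / 10 + 25 / 100 * a) * t :=
          mul_le_mul_of_nonneg_right m1 ht0.le
        -- t ≤ g a
        have n2 : t ≤ g * (1 + a) := by
          rw [ht]
          have : d * a ≤ g * a := mul_le_mul_of_nonneg_right hdg ha.le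
          linarith
        have n3 : (11 / 10 + 25 / 100 * a) * t ≤ 2 * t + 3 / 10 * t * a := by
          have : 0 < t * a := by positivity
          linarith
        linarith
      exact le_of_mul_le_mul_right m3 (by linarith)
    have k3 : x5 * a + x4 * a + x3 * a ≤ (1 + 3 * g) * (1 + 3 / 10 * t) := by
      have : 0 < g * t := by positivity
      linarith
    have k4 : (1 / 10 + x6) * a ≤ x7 * ((1 + 3 * g) * (1 + 3 / 10 * t)) := by
      rw [← k1]
      exact mul_le_mul_of_nonneg_left k3 p7.le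
    have k5 : a / 10 * (1 + 3 / 10 * t) ≤ (1 / 10 + x6) * a := by
      have : a * (9 / 100 * t) ≤ a * x6 := mul_le_mul_of_nonneg_left s6' ha.le
      have : 0 < a * t := by positivity
      linarith
    have k6 : a / 10 * (1 + 3 / 10 * t) ≤ x7 * (1 + 3 * g) * (1 + 3 / 10 * t) := by linarith
    exact le_of_mul_le_mul_right k6 (by linarith)
  -- x7 from above
  have s7' : x7 ≤ a / 10 * (1 + (4 * t + 4 * g)) := by
    have k1 : x7 * x3 ≤ 1 / 10 * (1 + 2 * t) := by
      have : 0 < x7 * (x5 + x4) := by positivity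
      linarith
    have k2 : X ≤ x3 * a * (X * (1 + 11 / 10 * t + g)) * (1 + g) := by
      have m1 : X + a + y1 ≤ X * (1 + 11 / 10 * t + g) := by
        have n1 : X * t = a := by
          rw [ht]
          have : X * (a * d) = a * (d * X) := by ring
          rw [this, hdX, mul_one]
        have n2 : X * (1 + 11 / 10 * t + g) = X + 11 / 10 * (X * t) + g * X := by ring
        rw [n2, n1]
        have n3 : (1 / 10 + a) * d ≤ 1 / 10 * 1 + a * (1 / 10) := by
          have : a * d ≤ a * (1 / 10) := mul_le_mul_of_nonneg_left (by linarith) ha.le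
          linarith
        linarith
      have m2 : x3 * (X + a + y1) ≤ x3 * (X * (1 + 11 / 10 * t + g)) :=
        mul_le_mul_of_nonneg_left m1 p3.le
      have m3 : x2 ≤ x3 * (X * (1 + 11 / 10 * t + g)) := by linarith
      have m4 : x2 * (a * (1 + g)) ≤ x3 * (X * (1 + 11 / 10 * t + g)) * (a * (1 + g)) :=
        mul_le_mul_of_nonneg_right m3 (by positivity)
      linarith
    have k3 : 1 ≤ x3 * a * (1 + 11 / 10 * t + g) * (1 + g) := by
      have m1 : X * 1 ≤ X * (x3 * a * (1 + 11 / 10 * t + g) * (1 + g)) := by linarith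
      exact le_of_mul_le_mul_left m1 hX
    have k4 : (1 + 2 * t) * ((1 + 11 / 10 * t + g) * (1 + g)) ≤ 1 + (4 * t + 4 * g) := by
      have m1 : (1 + 11 / 10 * t + g) * (1 + g) ≤ 1 + 12 / 10 * t + 3 * g := by
        have n1 : g * g ≤ 1 / 4000 * g := mul_le_mul_of_nonneg_right hg1 hg0.le
        have n2 : g * t ≤ 1 / 4000 * t := mul_le_mul_of_nonneg_right hg1 ht0.le
        linarith
      have m2 : (1 + 2 * t) * ((1 + 11 / 10 * t + g) * (1 + g)) ≤
          (1 + 2 * t) * (1 + 12 / 10 * t + 3 * g) :=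
        mul_le_mul_of_nonneg_left m1 (by linarith)
      have n3 : t * t ≤ 1 / 1000 * t := mul_le_mul_of_nonneg_right ht1 ht0.le
      have n4 : g * t ≤ 1 / 4000 * t := mul_le_mul_of_nonneg_right hg1 ht0.le
      linarith
    calc x7 = x7 * 1 := by ring
      _ ≤ x7 * (x3 * a * (1 + 11 / 10 * t + g) * (1 + g)) := mul_le_mul_of_nonneg_left k3 p7.le
      _ = (x7 * x3) * (a * ((1 + 11 / 10 * t + g) * (1 + g))) := by ring
      _ ≤ 1 / 10 * (1 + 2 * t) * (a * ((1 + 11 / 10 * t + g) * (1 + g))) :=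
          mul_le_mul_of_nonneg_right k1 (by positivity)
      _ = a / 10 * ((1 + 2 * t) * ((1 + 11 / 10 * t + g) * (1 + g))) := by ring
      _ ≤ _ := mul_le_mul_of_nonneg_left k4 (by linarith)
  -- the denominator of x8
  set G : ℝ := a ^ 2 / 10 + 3 * a / 10 + 1 with hGdef
  have hGpos : 0 < G := by rw [hGdef]; positivity
  have s8 : X * (x6 + x5 + x4) * (1 + a) ≤ G * (1 + 22 * g) := by
    have k1 : X * x6 * (1 + a) ≤ a / 10 * (1 + 12 * g) * (1 + a) :=
      mul_le_mul_of_nonneg_right s6 (by linarith)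
    have k2 : G * (1 + 22 * g) - (a / 10 * (1 + 12 * g) * (1 + a) + a / 10 * (1 + 22 * g) +
        (1 + a / 10) * (1 + 3 * g)) = g * (a ^ 2 + 29 / 10 * a + 19) := by
      rw [hGdef]
      ring
    have k3 : 0 < g * (a ^ 2 + 29 / 10 * a + 19) := by positivity
    linarith
  have s8' : (1 / 10 + x7) * (1 + a) * X ≤ x8 * (G * (1 + 22 * g)) := by
    have : (1 / 10 + x7) * (1 + a) * X = x8 * (X * (x6 + x5 + x4) * (1 + a)) := by
      rw [← h8]
      ring
    rw [this]
    exact mul_le_mul_of_nonneg_left s8 p8.le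
  -- bounds for x7
  have hx7lo : a / 10 * (1 - 3 * g) ≤ x7 := by
    have k1 : a / 10 * (1 - 3 * g) * (1 + 3 * g) ≤ x7 * (1 + 3 * g) := by
      have k2 : a / 10 * (1 - 3 * g) * (1 + 3 * g) = a / 10 - a / 10 * (9 * g ^ 2) := by ring
      rw [k2]
      have : 0 < a / 10 * (9 * g ^ 2) := by positivity
      linarith
    exact le_of_mul_le_mul_right k1 (by linarith)
  have hx7a : a / 20 ≤ x7 := by
    have : a / 10 * (1 / 2) ≤ a / 10 * (1 - 3 * g) :=
      mul_le_mul_of_nonneg_left (by linarith) (by linarith)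
    linarith
  have hx7b : x7 ≤ a / 5 := by
    have : a / 10 * (1 + (4 * t + 4 * g)) ≤ a / 10 * 2 :=
      mul_le_mul_of_nonneg_left (by linarith) (by linarith)
    linarith
  refine ⟨?_, hx7a, hx7b, ?_, ?_⟩
  · -- main inequality
    have hfin := final_ineq ha hg0.le hG2 ht0.le hT1
    rw [← hGdef] at hfin
    -- φ = (1/10 + x7)(1 + 3/4/x7)
    set φ : ℝ := (1 / 10 + x7) * (1 + 3 / 4 / x7) with hφ
    have hφ1 : φ = x7 + 17 / 20 + 3 / 40 / x7 := by
      rw [hφ]
      field_simp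
      ring
    have hφ2 : (1 + a) * (a / 10 + 3 / 4) - 3 / 10 * g * a ^ 2 - 3 / 4 * (4 * t + 4 * g) ≤
        a * φ := by
      have k1 : 3 / 4 * (1 - (4 * t + 4 * g)) ≤ a * (3 / 40 / x7) := by
        have m1 : 3 / 4 * (1 - (4 * t + 4 * g)) * x7 ≤ 3 / 40 * a := by
          have n1 : (1 - (4 * t + 4 * g)) * x7 ≤
              (1 - (4 * t + 4 * g)) * (a / 10 * (1 + (4 * t + 4 * g))) :=
            mul_le_mul_of_nonneg_left s7' (by linarith)
          have n2 : (1 - (4 * t + 4 * g)) * (a / 10 * (1 + (4 * t + 4 * g))) =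
              a / 10 - a / 10 * (4 * t + 4 * g) ^ 2 := by ring
          have n3 : 0 ≤ a / 10 * (4 * t + 4 * g) ^ 2 := by positivity
          linarith
        have m2 : a * (3 / 40 / x7) = 3 / 40 * a / x7 := by ring
        rw [m2, le_div_iff₀ p7]
        exact m1
      have k2 : a * (a / 10 * (1 - 3 * g)) ≤ a * x7 := mul_le_mul_of_nonneg_left hx7lo ha.le
      rw [hφ1]
      have k3 : a * (x7 + 17 / 20 + 3 / 40 / x7) =
          a * x7 + 17 / 20 * a + a * (3 / 40 / x7) := by ring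
      rw [k3]
      have k4 : a * (a / 10 * (1 - 3 * g)) = a ^ 2 / 10 - 3 / 10 * g * a ^ 2 := by ring
      rw [k4] at k2
      have k5 : (1 + a) * (a / 10 + 3 / 4) = a ^ 2 / 10 + 17 / 20 * a + 3 / 4 := by ring
      rw [k5]
      linarith
    have k1 : X * (1 + 3 / 4 / a) * (a * (G * (1 + 22 * g))) ≤
        x8 * (1 + 3 / 4 / x7) * (a * (G * (1 + 22 * g))) := by
      have m1 : X * (1 + 3 / 4 / a) * (a * (G * (1 + 22 * g))) =
          X * ((a + 3 / 4) * G * (1 + 22 * g)) := by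
        have : (1 + 3 / 4 / a) * a = a + 3 / 4 := by field_simp
        calc X * (1 + 3 / 4 / a) * (a * (G * (1 + 22 * g))) =
            X * (((1 + 3 / 4 / a) * a) * G * (1 + 22 * g)) := by ring
          _ = _ := by rw [this]
      rw [m1]
      have m2 : X * ((a + 3 / 4) * G * (1 + 22 * g)) ≤ X * ((1 + a) * (a * φ)) := by
        apply mul_le_mul_of_nonneg_left _ hX.le
        refine hfin.trans ?_
        exact mul_le_mul_of_nonneg_left hφ2 (by linarith)
      have m3 : X * ((1 + a) * (a * φ)) =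
          ((1 / 10 + x7) * (1 + a) * X) * ((1 + 3 / 4 / x7) * a) := by
        rw [hφ]
        ring
      have m4 : ((1 / 10 + x7) * (1 + a) * X) * ((1 + 3 / 4 / x7) * a) ≤
          (x8 * (G * (1 + 22 * g))) * ((1 + 3 / 4 / x7) * a) :=
        mul_le_mul_of_nonneg_right s8' (by positivity)
      rw [m3] at m2
      have m5 : (x8 * (G * (1 + 22 * g))) * ((1 + 3 / 4 / x7) * a) =
          x8 * (1 + 3 / 4 / x7) * (a * (G * (1 + 22 * g))) := by ring
      rw [m5] at m4
      exact m2.trans m4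
    exact le_of_mul_le_mul_right k1 (by positivity)
  · intro hx7
    have ha5 : 5 ≤ a := by linarith
    have k1 : G * (1 + 22 * g) ≤ a * (1 + a) := by
      have m1 : G * (1 + 22 * g) ≤ G * (11 / 10) := mul_le_mul_of_nonneg_left (by linarith) hGpos.le
      have m2 : G * (11 / 10) ≤ a * (1 + a) := by
        rw [hGdef]
        nlinarith
      linarith
    have k2 : x7 * (1 + a) * X ≤ x8 * (a * (1 + a)) := by
      have m1 : x8 * (G * (1 + 22 * g)) ≤ x8 * (a * (1 + a)) :=
        mul_le_mul_of_nonneg_left k1 p8.le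
      have m2 : 0 < 1 / 10 * (1 + a) * X := by positivity
      linarith
    have k3 : X * x7 * (1 + a) ≤ x8 * a * (1 + a) := by linarith
    exact le_of_mul_le_mul_right k3 (by linarith)
  · have : x2 * a * (1 + g) ≤ x2 * a * 2 := mul_le_mul_of_nonneg_left (by linarith) (by positivity)
    linarith

end Pool.Agent.RatRec.C328
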