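import Pool.Agent.Lib_helper86.RatU.Seg
import Pool.Agent.Lib_helper61.Rat.Code

/-!
Unbounded solutions from a certificate: no term of a solution is almost the supremum of a window
around it, and large.
-/

set_option autoImplicit false

namespace Pool.Agent.RatRec

/-- A form moved by `s` places. -/
def shf (s : ℕ) (f : List ℤ) : List ℤ := List.replicate s 0 ++ f

/-- The hypotheses in the case in which the form `p` is the largest at the position `Hh`. -/
def hyps (FS : List (List ℤ × ℤ)) (Hh sm : ℕ) (K : ℤ) (p : List ℤ × ℤ) : List (List ℤ × ℤ) :=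
  (addForm (-1) (shf Hh p.1) [], p.2 - K) ::
    (List.range sm).flatMap (fun s => FS.map (fun q =>
      (addForm (-1) (shf Hh p.1) (shf s q.1), p.2 - q.2 + 1)))

theorem hyps_ok {FS : List (List ℤ × ℤ)} {Hh sm : ℕ} {K : ℤ} {p : List ℤ × ℤ} {y : ℕ → ℝ}
    (hp : vmax y Hh FS = ev y Hh p.1 + p.2) (hK : (K : ℝ) ≤ vmax y Hh FS)
    (hrec : ∀ s, s < sm → vmax y s FS ≤ vmax y Hh FS + 1) :
    ∀ e ∈ hyps FS Hh sm K p, ev y 0 e.1 ≤ ((e.2 : ℤ) : ℝ) := by
  intro e he
  rcases List.mem_cons.mp he with rfl | he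
  · simp only [ev_addForm, shf, ev_replicate_append, ev, zero_add]
    push_cast
    linarith
  · simp only [List.mem_flatMap, List.mem_range, List.mem_map] at he
    obtain ⟨s, hs, q, hq, rfl⟩ := he
    simp only [ev_addForm, shf, ev_replicate_append, zero_add]
    have h1 := le_vmax y s hq
    have h2 := hrec s hs
    push_cast
    linarith

theorem getD_pairs {l : List (List ℤ × ℤ)} {y : ℕ → ℝ}
    (h : ∀ e ∈ l, ev y 0 e.1 ≤ ((e.2 : ℤ) : ℝ)) :
    ∀ t, t < (l.map Prod.fst).length → ev y 0 ((l.map Prod.fst).getD t []) ≤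
      (((l.map Prod.snd).getD t 0 : ℤ) : ℝ) := by
  intro t ht
  rw [List.length_map] at ht
  have h1 := h _ (List.getElem_mem ht)
  rw [List.getD_eq_getElem _ _ (by simpa using ht), List.getD_eq_getElem _ _ (by simpa using ht),
    List.getElem_map, List.getElem_map]
  exact h1

/-- The tree check for the form `p`. -/
def treeOK (mS mT : ℕ) (g h : List ℤ) (W : ℕ) (hy : List (List ℤ × ℤ)) (t : Tree) : Bool :=
  chkA (bits mS) (bits mT) g h (er mS) (er mT) W (hy.map Prod.fst) (hy.map Prod.snd) t [] none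

/-- The check of the first terms: the term `n0` is large and a record. -/
def segFin (FS : List (List ℤ × ℤ)) (K : ℤ) (L n0 : ℕ) (P : List ℤ × List ℤ) : Bool :=
  FS.any (fun p => Nat.ble p.1.length (n0 + 1) && decide (K + 1 ≤ evLo P.1 P.2 p.1 0 + p.2) &&
    (List.range L).all (fun k => FS.all (fun q => Nat.ble (k + 1 + q.1.length) (n0 + 1) &&
      decide (evLo P.2 P.1 q.1 (k + 1) + q.2 ≤ evLo P.1 P.2 p.1 0 + p.2))))

theorem segFin_sound {FS : List (List ℤ × ℤ)} {K : ℤ} {L n0 : ℕ} {P : List ℤ × List ℤ}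
    {x : ℕ → ℝ} (hP : SegOK x (n0 + 1) P) (h : segFin FS K L n0 P = true) :
    (K : ℝ) + 1 ≤ vmax (lb x n0) 0 FS ∧
      ∀ m, n0 ≤ m + L → m < n0 → vmax (lb x m) 0 FS ≤ vmax (lb x n0) 0 FS := by
  simp only [segFin, List.any_eq_true, Bool.and_eq_true, List.all_eq_true, List.mem_range,
    decide_eq_true_eq, Nat.ble_eq] at h
  obtain ⟨p, hp, ⟨h1, h2⟩, h3⟩ := h
  have hne : FS ≠ [] := List.ne_nil_of_mem hp
  have e1 := (evLo_le hP p.1 0 (by omega)).1
  have e2 := le_vmax (lb x n0) 0 hp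
  have e3 : ((K : ℤ) : ℝ) + 1 ≤ ((evLo P.1 P.2 p.1 0 : ℤ) : ℝ) + p.2 := by exact_mod_cast h2
  refine ⟨by linarith, ?_⟩
  intro m hm1 hm2
  obtain ⟨k, rfl⟩ : ∃ k, n0 = m + (k + 1) := ⟨n0 - m - 1, by omega⟩
  have e4 : vmax (lb x m) 0 FS = vmax (lb x (m + (k + 1))) (k + 1) FS := by
    rw [vmax_shift x (m + (k + 1)) (k + 1)]
    congr 2
    omega
  rw [e4]
  apply vmax_le hne
  intro q hq
  obtain ⟨g1, g2⟩ := h3 k (by omega) q hq
  have f1 := (evLo_le hP q.1 (k + 1) (by omega)).2
  have f2 : ((evLo P.2 P.1 q.1 (k + 1) : ℤ) : ℝ) + q.2 ≤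
      ((evLo P.1 P.2 p.1 0 : ℤ) : ℝ) + p.2 := by exact_mod_cast g2
  linarith

/-- A certificate. -/
structure UCert where
  /-- the numerator mask -/
  S : ℕ
  /-- the denominator mask -/
  T : ℕ
  /-- exponents of the numerator coefficients -/
  g : List ℤ
  /-- exponents of the denominator coefficients -/
  h : List ℤ
  /-- terms of the window before the term which is almost the supremum -/
  L : ℕ
  /-- terms of the window after it -/
  H : ℕ
  /-- the number of places used by the forms -/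
  len : ℕ
  /-- the threshold -/
  K : ℤ
  /-- exponents of the initial values -/
  s : List ℤ
  /-- the index of the record -/
  n0 : ℕ
  /-- the forms, with their constants, and the coded trees -/
  F : List ((List ℤ × ℤ) × ℕ × ℕ)

/-- The first `n` digits in base `B`. -/
def toksB (B : ℕ) : ℕ → ℕ → List ℕ
  | 0, _ => []
  | n + 1, c => (c % B) :: toksB B n (c / B)

/-- Decode a tree in base 64. -/
def decodeB (n c : ℕ) : Tree := (readTree n none (toksB 64 n c)).1

/-- The window. -/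
def UCert.W (c : UCert) : ℕ := c.L + c.H + c.len

/-- The check of a certificate. -/
def UCert.ok (c : UCert) : Bool :=
  !(bits c.S).isEmpty && !(bits c.T).isEmpty && Nat.ble 3 c.n0 &&
    Nat.ble (c.L + c.len) (c.n0 + 1) &&
    segFin (c.F.map Prod.fst) c.K c.L c.n0
      (segN (bits c.S) (bits c.T) c.g c.h (er c.S) (er c.T) (c.n0 - 3)
        ([c.s.getD 3 0, c.s.getD 2 0, c.s.getD 1 0, c.s.getD 0 0],
          [c.s.getD 3 0, c.s.getD 2 0, c.s.getD 1 0, c.s.getD 0 0])) &&
    c.F.all (fun e => treeOK c.S c.T c.g c.h c.W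
      (hyps (c.F.map Prod.fst) c.H (c.L + c.H + 1) c.K e.1) (decodeB e.2.1 e.2.2))

theorem nonempty_of_bits {m : ℕ} (h : bits m ≠ []) : (fs m).Nonempty := by
  obtain ⟨a, l, hl⟩ := List.exists_cons_of_ne_nil h
  obtain ⟨i, _, hi⟩ := mem_bits (m := m) (k := a) (by rw [hl]; simp)
  exact ⟨i, hi⟩

/-- The functional of the certificate is unbounded along some solution. -/
theorem UCert.unbounded {c : UCert} (hc : c.ok = true) :
    ∃ x : ℕ → ℝ, PosSolution (coef c.S c.g) (coef c.T c.h) x ∧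
      IsSolution (coef c.S c.g) (coef c.T c.h) x ∧
      ¬ ∃ M : ℝ, ∀ n, vmax (lb x n) 0 (c.F.map Prod.fst) ≤ M := by
  simp only [UCert.ok, Bool.and_eq_true, Bool.not_eq_true', List.isEmpty_eq_false_iff,
    Nat.ble_eq, List.all_eq_true] at hc
  obtain ⟨⟨⟨⟨⟨hS, hT⟩, h3⟩, hn0⟩, hseg⟩, htree⟩ := hc
  set FS := c.F.map Prod.fst with hFS
  obtain ⟨x, hx, hx', hs⟩ := exists_sol (nonempty_of_bits hS) (nonempty_of_bits hT) c.g c.h c.s
  refine ⟨x, hx, hx', ?_⟩
  rintro ⟨M, hM⟩
  have hP := segOK_N hx hS hT (c.n0 - 3) (n := 4) le_rfl (segOK_start hs)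
  have e4 : 4 + (c.n0 - 3) = c.n0 + 1 := by omega
  rw [e4] at hP
  obtain ⟨k1, k2⟩ := segFin_sound hP hseg
  obtain ⟨N, hN, hKN, hrec⟩ := near_sup hM k1 k2
  have hne : FS ≠ [] := by
    intro h0
    rw [h0] at hseg
    simp [segFin] at hseg
  set N' := N + c.H with hN'
  have hVN : vmax (lb x N') c.H FS = vmax (lb x N) 0 FS := by
    rw [vmax_shift]
    congr 2
    omega
  obtain ⟨p, hp, hpv⟩ := vmax_mem (lb x N') c.H hne
  rw [hFS, List.mem_map] at hp
  obtain ⟨e, he, rfl⟩ := hp
  have hw := awindow_back hx (N := N') (W := c.W) (by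
    unfold UCert.W
    omega)
  have hh := hyps_ok (K := c.K) (sm := c.L + c.H + 1) hpv (by rw [hVN]; exact hKN) (by
    intro s hs
    rw [hVN, vmax_shift]
    exact hrec _ (by omega))
  have h5 := htree e he
  exact (chkA_sound hS hT hw (getD_pairs hh) _ [] none h5 (by simp)).1 rfl

theorem ev_le_of_nonneg {y : ℕ → ℝ} {M : ℝ} (hM : 0 ≤ M) (hy : ∀ t, y t ≤ M) (f : List ℤ)
    (hf : ∀ a ∈ f, 0 ≤ a) (s : ℕ) : ev y s f ≤ (f.sum : ℤ) * M := by
  induction f generalizing s with
  | nil => simp [ev]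
  | cons a f ih =>
    simp only [ev, List.sum_cons]
    rw [Int.cast_add]
    have ha : (0 : ℝ) ≤ a := by exact_mod_cast hf a (by simp)
    have h1 := ih (fun b hb => hf b (List.mem_cons_of_mem _ hb)) (s + 1)
    have h2 := mul_le_mul_of_nonneg_left (hy s) ha
    nlinarith

/-- The certificate gives an unbounded solution when all coefficients of its forms are
nonnegative. -/
theorem UCert.not_boundedOnly {c : UCert} (hc : c.ok = true)
    (hF : c.F.all (fun e => e.1.1.all (fun a => decide (0 ≤ a))) = true) :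
    ¬ BoundedOnly (fs c.S) (fs c.T) := by
  intro hB
  obtain ⟨x, hx, hx', hV⟩ := UCert.unbounded hc
  obtain ⟨M, hM⟩ := hB _ _ (coef_supported c.S c.g) (coef_supported c.T c.h) x hx'
  apply hV
  have h5 : (1 : ℝ) < 5 := by norm_num
  set M1 : ℝ := max (Real.logb 5 M) 0 with hM1
  have hy : ∀ n t, lb x n t ≤ M1 := by
    intro n t
    refine le_trans ?_ (le_max_left _ _)
    simp only [lb]
    exact (Real.logb_le_logb h5 (hx.pos _) (lt_of_lt_of_le (hx.pos _) (hM (n - t)))).mpr
      (hM (n - t))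
  have hM0 : 0 ≤ M1 := le_max_right _ _
  simp only [List.all_eq_true, decide_eq_true_eq] at hF
  have hne : c.F.map Prod.fst ≠ [] := by
    intro h0
    simp only [UCert.ok, Bool.and_eq_true, h0] at hc
    have := hc.1.2
    simp [segFin] at this
  -- a common bound
  have key : ∀ l : List (List ℤ × ℤ), (∀ p ∈ l, ∀ a ∈ p.1, 0 ≤ a) →
      ∃ M2 : ℝ, ∀ p ∈ l, ∀ n, ev (lb x n) 0 p.1 + p.2 ≤ M2 := by
    intro l hl
    induction l with
    | nil => exact ⟨0, by simp⟩
    | cons p l ih =>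
      obtain ⟨M2, hM2⟩ := ih (fun q hq => hl q (List.mem_cons_of_mem _ hq))
      refine ⟨max M2 ((p.1.sum : ℤ) * M1 + p.2), ?_⟩
      intro q hq n
      rcases List.mem_cons.mp hq with rfl | hq
      · apply le_max_of_le_right
        have := ev_le_of_nonneg hM0 (hy n) q.1 (hl q (by simp)) 0
        linarith
      · exact le_max_of_le_left (hM2 q hq n)
  obtain ⟨M2, hM2⟩ := key (c.F.map Prod.fst) (by
    intro p hp
    rw [List.mem_map] at hp
    obtain ⟨e, he, rfl⟩ := hp
    exact hF e he)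
  exact ⟨M2, fun n => vmax_le hne (fun p hp => hM2 p hp n)⟩

/-- The check of a certificate with one form `x_n`. -/
def UCert.ok1 (c : UCert) : Bool :=
  c.ok && c.F.all (fun e => e.1.1.all (fun a => decide (0 ≤ a)))

/-- Check of all certificates. -/
def okAll : List UCert → Bool
  | [] => true
  | c :: l => c.ok1 && okAll l

theorem of_okAll {l : List UCert} (h : okAll l = true) :
    ∀ c ∈ l, ¬ BoundedOnly (fs c.S) (fs c.T) := by
  induction l with
  | nil => simp
  | cons a l ih =>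
    simp only [okAll, UCert.ok1, Bool.and_eq_true] at h
    intro c hc
    rcases List.mem_cons.mp hc with rfl | hc
    · exact UCert.not_boundedOnly h.1.1 h.1.2
    · exact ih h.2 c hc

end Pool.Agent.RatRec
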