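import Pool.Agent.Lib_helper86.RatU.Sol

/-!
Interval arithmetic for the first terms of a solution, and the argument with a term which is
almost the supremum.
-/

set_option autoImplicit false

namespace Pool.Agent.RatRec

/-- The exponent of the argument number `k`, from a list of exponents, newest first. -/
def argL (l : List ℤ) (k : ℕ) : ℤ := if k = 0 then 0 else l.getD (k - 1) 0

/-- The largest exponent. -/
def mxo (g l : List ℤ) : List ℕ → ℤ
  | [] => 0
  | [i] => g.getD i 0 + argL l i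
  | i :: j :: r => max (g.getD i 0 + argL l i) (mxo g l (j :: r))

theorem mxo_le {g l : List ℤ} {y : ℕ → ℝ} {S : List ℕ} (hS : S ≠ [])
    (h : ∀ k ∈ S, ((argL l k : ℤ) : ℝ) ≤ zv y 0 k) :
    ∃ i ∈ S, ((mxo g l S : ℤ) : ℝ) ≤ zc g y 0 i := by
  induction S with
  | nil => exact absurd rfl hS
  | cons i r ih =>
    cases r with
    | nil =>
      refine ⟨i, by simp, ?_⟩
      simp only [mxo, zc]
      push_cast
      have := h i (by simp)
      linarith
    | cons j r =>
      obtain ⟨k, hk, h1⟩ := ih (by simp) (fun k hk => h k (List.mem_cons_of_mem _ hk))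
      simp only [mxo]
      rcases le_total (g.getD i 0 + argL l i) (mxo g l (j :: r)) with h2 | h2
      · rw [max_eq_right h2]
        exact ⟨k, List.mem_cons_of_mem _ hk, h1⟩
      · rw [max_eq_left h2]
        refine ⟨i, by simp, ?_⟩
        have := h i (by simp)
        simp only [zc]
        push_cast
        linarith

theorem le_mxo {g l : List ℤ} {y : ℕ → ℝ} {S : List ℕ}
    (h : ∀ k ∈ S, zv y 0 k ≤ ((argL l k : ℤ) : ℝ)) :
    ∀ i ∈ S, zc g y 0 i ≤ ((mxo g l S : ℤ) : ℝ) := by
  induction S with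
  | nil => simp
  | cons i r ih =>
    intro k hk
    have ih' := ih (fun k hk => h k (List.mem_cons_of_mem _ hk))
    cases r with
    | nil =>
      have hki : k = i := by simpa using hk
      subst hki
      have := h k (by simp)
      simp only [mxo, zc]
      push_cast
      linarith
    | cons j r =>
      simp only [mxo]
      push_cast
      rcases List.mem_cons.mp hk with rfl | hk
      · apply le_max_of_le_left
        have := h k (by simp)
        simp only [zc]
        linarith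
      · exact le_max_of_le_right (ih' k hk)

/-- One step of the interval arithmetic. -/
def segStep (S T : List ℕ) (g h : List ℤ) (eS eT : ℤ) (p : List ℤ × List ℤ) :
    List ℤ × List ℤ :=
  ((mxo g p.1 S - mxo h p.2 T - eT) :: p.1, (mxo g p.2 S + eS - mxo h p.1 T) :: p.2)

/-- Several steps. -/
def segN (S T : List ℕ) (g h : List ℤ) (eS eT : ℤ) :
    ℕ → List ℤ × List ℤ → List ℤ × List ℤ
  | 0, p => p
  | n + 1, p => segN S T g h eS eT n (segStep S T g h eS eT p)

/-- The first `n` terms lie in the intervals. -/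
def SegOK (x : ℕ → ℝ) (n : ℕ) (p : List ℤ × List ℤ) : Prop :=
  ∀ k, k < n → ((p.1.getD k 0 : ℤ) : ℝ) ≤ lb x n (k + 1) ∧
    lb x n (k + 1) ≤ ((p.2.getD k 0 : ℤ) : ℝ)

theorem segOK_step {mS mT : ℕ} {g h : List ℤ} {x : ℕ → ℝ}
    (hx : PosSolution (coef mS g) (coef mT h) x) (hS : bits mS ≠ []) (hT : bits mT ≠ [])
    {n : ℕ} (hn : 4 ≤ n) {p : List ℤ × List ℤ} (hp : SegOK x n p) :
    SegOK x (n + 1) (segStep (bits mS) (bits mT) g h (er mS) (er mT) p) := by
  have hw := awindow_back hx (N := n) (W := 5) (by omega) 0 (by norm_num)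
  have hlt : ∀ m k, k ∈ bits m → k < 5 := by
    intro m k hk
    obtain ⟨i, rfl, _⟩ := mem_bits hk
    exact i.2
  have hlo : ∀ k, k < 5 → ((argL p.1 k : ℤ) : ℝ) ≤ zv (lb x n) 0 k := by
    intro k hk
    rcases Nat.eq_zero_or_pos k with rfl | h0
    · simp [argL, zv]
    · obtain ⟨j, rfl⟩ : ∃ j, k = j + 1 := ⟨k - 1, by omega⟩
      have := (hp j (by omega)).1
      simpa [argL, zv] using this
  have hhi : ∀ k, k < 5 → zv (lb x n) 0 k ≤ ((argL p.2 k : ℤ) : ℝ) := by
    intro k hk
    rcases Nat.eq_zero_or_pos k with rfl | h0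
    · simp [argL, zv]
    · obtain ⟨j, rfl⟩ : ∃ j, k = j + 1 := ⟨k - 1, by omega⟩
      have := (hp j (by omega)).2
      simpa [argL, zv] using this
  intro k hk
  rcases Nat.eq_zero_or_pos k with rfl | h0
  · have e : lb x (n + 1) (0 + 1) = lb x n 0 := by simp [lb]
    rw [e]
    constructor
    · obtain ⟨j, hj, hjm⟩ := exists_amax h (lb x n) 0 hT
      obtain ⟨i, hi, h1⟩ := mxo_le (g := g) (l := p.1) hS (fun k hk => hlo k (hlt _ k hk))
      have h2 := le_mxo (g := h) (l := p.2) (S := bits mT) (fun k hk => hhi k (hlt _ k hk)) j hj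
      have h3 := hw.2 j hj hjm i hi
      simp only [segStep, List.getD_cons_zero]
      push_cast
      linarith
    · obtain ⟨i, hi, him⟩ := exists_amax g (lb x n) 0 hS
      obtain ⟨j, hj, h1⟩ := mxo_le (g := h) (l := p.1) hT (fun k hk => hlo k (hlt _ k hk))
      have h2 := le_mxo (g := g) (l := p.2) (S := bits mS) (fun k hk => hhi k (hlt _ k hk)) i hi
      have h3 := hw.1 i hi him j hj
      simp only [segStep, List.getD_cons_zero]
      push_cast
      linarith
  · obtain ⟨j, rfl⟩ : ∃ j, k = j + 1 := ⟨k - 1, by omega⟩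
    have e : lb x (n + 1) (j + 1 + 1) = lb x n (j + 1) := by
      simp only [lb]
      congr 2
      omega
    rw [e]
    simpa [segStep] using hp j (by omega)

theorem segOK_N {mS mT : ℕ} {g h : List ℤ} {x : ℕ → ℝ}
    (hx : PosSolution (coef mS g) (coef mT h) x) (hS : bits mS ≠ []) (hT : bits mT ≠ [])
    (m : ℕ) {n : ℕ} (hn : 4 ≤ n) {p : List ℤ × List ℤ} (hp : SegOK x n p) :
    SegOK x (n + m) (segN (bits mS) (bits mT) g h (er mS) (er mT) m p) := by
  induction m generalizing n p with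
  | zero => exact hp
  | succ m ih =>
    have := ih (n := n + 1) (by omega) (segOK_step hx hS hT hn hp)
    have e : n + (m + 1) = n + 1 + m := by ring
    rw [e]
    exact this

theorem segOK_start {x : ℕ → ℝ} {s : List ℤ}
    (hs : ∀ i, i < 4 → Real.logb 5 (x i) = ((s.getD i 0 : ℤ) : ℝ)) :
    SegOK x 4 ([s.getD 3 0, s.getD 2 0, s.getD 1 0, s.getD 0 0],
      [s.getD 3 0, s.getD 2 0, s.getD 1 0, s.getD 0 0]) := by
  intro k hk
  have h0 := hs 0 (by norm_num)
  have h1 := hs 1 (by norm_num)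
  have h2 := hs 2 (by norm_num)
  have h3 := hs 3 (by norm_num)
  interval_cases k
  · simp [lb, h3]
  · simp [lb, h2]
  · simp [lb, h1]
  · simp [lb, h0]

/-- A lower bound of a form at the position `k`. -/
def evLo (lo hi : List ℤ) : List ℤ → ℕ → ℤ
  | [], _ => 0
  | a :: f, k => (if 0 ≤ a then a * lo.getD k 0 else a * hi.getD k 0) + evLo lo hi f (k + 1)

theorem evLo_le {x : ℕ → ℝ} {n : ℕ} {p : List ℤ × List ℤ} (hp : SegOK x (n + 1) p)
    (f : List ℤ) (k : ℕ) (hk : k + f.length ≤ n + 1) :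
    ((evLo p.1 p.2 f k : ℤ) : ℝ) ≤ ev (lb x n) k f ∧
      ev (lb x n) k f ≤ ((evLo p.2 p.1 f k : ℤ) : ℝ) := by
  induction f generalizing k with
  | nil => simp [evLo, ev]
  | cons a f ih =>
    simp only [List.length_cons] at hk
    obtain ⟨h1, h2⟩ := ih (k + 1) (by omega)
    obtain ⟨g1, g2⟩ := hp k (by omega)
    have e : lb x (n + 1) (k + 1) = lb x n k := by simp [lb]
    rw [e] at g1 g2
    simp only [evLo, ev]
    by_cases ha : 0 ≤ a
    · have ha' : (0 : ℝ) ≤ a := by exact_mod_cast ha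
      rw [if_pos ha, if_pos ha]
      push_cast
      have := mul_le_mul_of_nonneg_left g1 ha'
      have := mul_le_mul_of_nonneg_left g2 ha'
      exact ⟨by linarith, by linarith⟩
    · have ha' : (a : ℝ) ≤ 0 := by
        have : a ≤ 0 := by omega
        exact_mod_cast this
      rw [if_neg ha, if_neg ha]
      push_cast
      have := mul_le_mul_of_nonpos_left g1 ha'
      have := mul_le_mul_of_nonpos_left g2 ha'
      exact ⟨by linarith, by linarith⟩

/-- The maximum of several forms with constants. -/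
def vmax (y : ℕ → ℝ) (s : ℕ) : List (List ℤ × ℤ) → ℝ
  | [] => 0
  | [p] => ev y s p.1 + p.2
  | p :: q :: l => max (ev y s p.1 + p.2) (vmax y s (q :: l))

theorem vmax_mem (y : ℕ → ℝ) (s : ℕ) {FS : List (List ℤ × ℤ)} (h : FS ≠ []) :
    ∃ p ∈ FS, vmax y s FS = ev y s p.1 + p.2 := by
  induction FS with
  | nil => exact absurd rfl h
  | cons p l ih =>
    cases l with
    | nil => exact ⟨p, by simp, rfl⟩
    | cons q l =>
      obtain ⟨p', hp', h1⟩ := ih (by simp)
      rcases le_total (ev y s p.1 + p.2) (vmax y s (q :: l)) with h2 | h2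
      · refine ⟨p', List.mem_cons_of_mem _ hp', ?_⟩
        simp only [vmax, max_eq_right h2]
        exact h1
      · refine ⟨p, by simp, ?_⟩
        simp only [vmax, max_eq_left h2]

theorem le_vmax (y : ℕ → ℝ) (s : ℕ) {FS : List (List ℤ × ℤ)} {p : List ℤ × ℤ} (h : p ∈ FS) :
    ev y s p.1 + p.2 ≤ vmax y s FS := by
  induction FS with
  | nil => simp at h
  | cons q l ih =>
    cases l with
    | nil =>
      have : p = q := by simpa using h
      subst this
      exact le_rfl
    | cons r l =>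
      rcases List.mem_cons.mp h with rfl | h
      · exact le_max_left _ _
      · exact (ih h).trans (le_max_right _ _)

theorem vmax_shift (x : ℕ → ℝ) (N s : ℕ) (FS : List (List ℤ × ℤ)) :
    vmax (lb x N) s FS = vmax (lb x (N - s)) 0 FS := by
  induction FS with
  | nil => rfl
  | cons p l ih =>
    have h1 := ev_lb_shift x N s p.1 0
    rw [add_zero] at h1
    cases l with
    | nil => simp only [vmax, h1]
    | cons q l => simp only [vmax, h1, ih]

theorem vmax_le {y : ℕ → ℝ} {s : ℕ} {FS : List (List ℤ × ℤ)} (hne : FS ≠ []) {M : ℝ}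
    (h : ∀ p ∈ FS, ev y s p.1 + p.2 ≤ M) : vmax y s FS ≤ M := by
  obtain ⟨p, hp, h1⟩ := vmax_mem y s hne
  rw [h1]
  exact h p hp

/-- A term which is almost the supremum. -/
theorem near_sup {V : ℕ → ℝ} {M : ℝ} (hM : ∀ n, V n ≤ M) {n0 L : ℕ} {K : ℝ}
    (hK : K + 1 ≤ V n0) (hr : ∀ m, n0 ≤ m + L → m < n0 → V m ≤ V n0) :
    ∃ N, n0 ≤ N ∧ K ≤ V N ∧ ∀ m, N ≤ m + L → V m ≤ V N + 1 := by
  set s := sSup (V '' Set.Ici n0) with hs
  have hne : (V '' Set.Ici n0).Nonempty := ⟨V n0, n0, Set.mem_Ici.mpr le_rfl, rfl⟩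
  have hbd : BddAbove (V '' Set.Ici n0) := ⟨M, by rintro _ ⟨n, _, rfl⟩; exact hM n⟩
  have hle : ∀ n, n0 ≤ n → V n ≤ s := fun n hn => le_csSup hbd ⟨n, Set.mem_Ici.mpr hn, rfl⟩
  obtain ⟨_, ⟨N, hN, rfl⟩, h1⟩ := exists_lt_of_lt_csSup hne (show s - 1 < s by linarith)
  refine ⟨N, hN, ?_, ?_⟩
  · have := hle n0 le_rfl
    linarith
  · intro m hm
    rcases le_or_gt n0 m with h2 | h2
    · have := hle m h2
      linarith
    · have hN' : n0 ≤ N := hN
      have h3 := hr m (by omega) h2
      have h4 := hle n0 le_rfl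
      linarith

end Pool.Agent.RatRec
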