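import Pool.Agent.Lib_helper86.RatU.Affine

/-!
Positive solutions whose coefficients are powers of 5, and the windows of their logarithms.
-/

set_option autoImplicit false

namespace Pool.Agent.RatRec

/-- Coefficients which are powers of 5. -/
noncomputable def coef (m : ℕ) (g : List ℤ) (i : Fin 5) : ℝ :=
  if i ∈ fs m then (5 : ℝ) ^ (g.getD i 0 : ℤ) else 0

theorem coef_supported (m : ℕ) (g : List ℤ) : SupportedOn (coef m g) (fs m) := by
  refine ⟨fun i hi => ?_, fun i hi => ?_⟩
  · simp only [coef, hi, if_true]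
    positivity
  · simp only [coef, hi, if_false]

theorem logb_zpow5 (z : ℤ) : Real.logb 5 ((5 : ℝ) ^ z) = z := by
  rw [← Real.rpow_intCast, Real.logb_rpow (by norm_num) (by norm_num)]

/-- Logarithms to the base 5 seen backwards from `N`. -/
noncomputable def lb (x : ℕ → ℝ) (N t : ℕ) : ℝ := Real.logb 5 (x (N - t))

theorem zv_lb {x : ℕ → ℝ} {N d : ℕ} (hd : d + 4 ≤ N) (k : Fin 5) :
    zv (lb x N) d k = Real.logb 5 (arg x (N - d - 4) k) := by
  fin_cases k
  · simp [zv, arg]
  · have : N - (d + 1) = N - d - 4 + 3 := by omega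
    simp [zv, arg, lb, this]
  · have : N - (d + 2) = N - d - 4 + 2 := by omega
    simp [zv, arg, lb, this]
  · have : N - (d + 3) = N - d - 4 + 1 := by omega
    simp [zv, arg, lb, this]
  · have : N - (d + 4) = N - d - 4 := by omega
    simp [zv, arg, lb, this]

theorem zc_lb {x : ℕ → ℝ} (hx : ∀ n, 0 < x n) {N d : ℕ} (hd : d + 4 ≤ N) {m : ℕ} (g : List ℤ)
    {k : Fin 5} (hk : k ∈ fs m) :
    zc g (lb x N) d k = Real.logb 5 (coef m g k * arg x (N - d - 4) k) := by
  have h5 : (1 : ℝ) < 5 := by norm_num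
  rw [zc, zv_lb hd, coef, if_pos hk, Real.logb_mul (by positivity) (arg_pos hx _ k).ne',
    logb_zpow5]

/-- The number of indices is the length of the list of indices. -/
theorem card_fs (m : ℕ) : (fs m).card = (bits m).length := by
  simp only [fs, bits, Finset.card_filter, Fin.sum_univ_five, List.range_succ, List.range_zero,
    List.nil_append, List.filter_append, List.length_append, List.filter_cons, List.filter_nil]
  simp only [Fin.val_zero, Fin.val_one, Fin.val_two]
  have h3 : ((3 : Fin 5) : ℕ) = 3 := rfl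
  have h4 : ((4 : Fin 5) : ℕ) = 4 := rfl
  rw [h3, h4]
  split_ifs <;> rfl

/-- The error of a sum: 0 for one term, otherwise 1. -/
def er (m : ℕ) : ℤ := if (bits m).length ≤ 1 then 0 else 1

theorem card_le_er {m : ℕ} : ((fs m).card : ℝ) ≤ (5 : ℝ) ^ ((er m : ℤ) : ℝ) := by
  have h5 : (fs m).card ≤ 5 := by
    have := Finset.card_le_univ (fs m)
    simpa using this
  by_cases h : (bits m).length ≤ 1
  · rw [er, if_pos h, card_fs]
    simp only [Int.cast_zero, Real.rpow_zero]
    exact_mod_cast h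
  · rw [er, if_neg h]
    simp only [Int.cast_one, Real.rpow_one]
    exact_mod_cast h5

theorem sum_le_of_amax {m : ℕ} {c : Fin 5 → ℝ} (hc : SupportedOn c (fs m)) {a : Fin 5 → ℝ}
    (ha : ∀ k, 0 < a k) {i : Fin 5} (hi' : i ∈ fs m)
    (hi : ∀ k ∈ fs m, c k * a k ≤ c i * a i) :
    ∑ k, c k * a k ≤ (5 : ℝ) ^ ((er m : ℤ) : ℝ) * (c i * a i) := by
  have e1 : ∑ k, c k * a k = ∑ k ∈ fs m, c k * a k := by
    symm
    apply Finset.sum_subset (Finset.subset_univ _)
    intro k _ hk
    rw [hc.2 k hk, zero_mul]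
  rw [e1]
  calc ∑ k ∈ fs m, c k * a k ≤ ∑ k ∈ fs m, c i * a i := Finset.sum_le_sum hi
    _ = (fs m).card * (c i * a i) := by rw [Finset.sum_const, nsmul_eq_mul]
    _ ≤ _ := mul_le_mul_of_nonneg_right card_le_er (mul_pos (hc.1 i hi') (ha i)).le

theorem awindow_back {mS mT : ℕ} {g h : List ℤ} {x : ℕ → ℝ}
    (hx : PosSolution (coef mS g) (coef mT h) x) {N W : ℕ} (hW : W ≤ N + 1) :
    AWindow (bits mS) (bits mT) g h (er mS) (er mT) W (lb x N) := by
  intro d hd
  have hdN : d + 4 ≤ N := by omega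
  set n := N - d - 4 with hn
  have hb := coef_supported mS g
  have hB := coef_supported mT h
  have h5 : (1 : ℝ) < 5 := by norm_num
  have hxn : x (N - d) =
      (∑ k, coef mS g k * arg x n k) / ∑ k, coef mT h k * arg x n k := by
    have h1 : N - d = n + 4 := by omega
    rw [h1, hx.step, lin_eq_sum, lin_eq_sum]
  have hA : ∀ k, 0 < arg x n k := arg_pos hx.pos n
  have h6 : lb x N d = Real.logb 5 (x (N - d)) := rfl
  constructor
  · intro i hi hmax j hj
    obtain ⟨i, rfl, hi'⟩ := mem_bits hi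
    obtain ⟨j, rfl, hj'⟩ := mem_bits hj
    have pi : 0 < coef mS g i * arg x n i := mul_pos (hb.1 i hi') (hA i)
    have pj : 0 < coef mT h j * arg x n j := mul_pos (hB.1 j hj') (hA j)
    have hmax' : ∀ k ∈ fs mS, coef mS g k * arg x n k ≤ coef mS g i * arg x n i := by
      intro k hk
      have h1 := hmax k (mem_fs hk)
      rw [zc_lb hx.pos hdN g hk, zc_lb hx.pos hdN g hi'] at h1
      exact (Real.logb_le_logb h5 (mul_pos (hb.1 k hk) (hA k)) pi).mp h1
    have h1 : x (N - d) ≤
        ((5 : ℝ) ^ ((er mS : ℤ) : ℝ) * (coef mS g i * arg x n i)) / (coef mT h j * arg x n j) := by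
      rw [hxn]
      apply div_le_div₀ (by positivity) (sum_le_of_amax hb hA hi' hmax') pj
        (single_le_lin hB.nonneg hA j)
    have h2 := (Real.logb_le_logb h5 (hx.pos _) (by positivity)).mpr h1
    rw [Real.logb_div (by positivity) pj.ne', Real.logb_mul (by positivity) pi.ne',
      Real.logb_rpow (by norm_num) (by norm_num)] at h2
    rw [zc_lb hx.pos hdN g hi', zc_lb hx.pos hdN h hj', h6]
    linarith
  · intro j hj hmax i hi
    obtain ⟨i, rfl, hi'⟩ := mem_bits hi
    obtain ⟨j, rfl, hj'⟩ := mem_bits hj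
    have pi : 0 < coef mS g i * arg x n i := mul_pos (hb.1 i hi') (hA i)
    have pj : 0 < coef mT h j * arg x n j := mul_pos (hB.1 j hj') (hA j)
    have hmax' : ∀ k ∈ fs mT, coef mT h k * arg x n k ≤ coef mT h j * arg x n j := by
      intro k hk
      have h1 := hmax k (mem_fs hk)
      rw [zc_lb hx.pos hdN h hk, zc_lb hx.pos hdN h hj'] at h1
      exact (Real.logb_le_logb h5 (mul_pos (hB.1 k hk) (hA k)) pj).mp h1
    have hden : 0 < ∑ k, coef mT h k * arg x n k :=
      lt_of_lt_of_le pj (single_le_lin hB.nonneg hA j)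
    have h1 : (coef mS g i * arg x n i) /
        ((5 : ℝ) ^ ((er mT : ℤ) : ℝ) * (coef mT h j * arg x n j)) ≤ x (N - d) := by
      rw [hxn]
      apply div_le_div₀ _ (single_le_lin hb.nonneg hA i) hden (sum_le_of_amax hB hA hj' hmax')
      exact Finset.sum_nonneg (fun k _ => mul_nonneg (hb.nonneg k) (hA k).le)
    have h2 := (Real.logb_le_logb h5 (by positivity) (hx.pos _)).mpr h1
    rw [Real.logb_div pi.ne' (by positivity), Real.logb_mul (by positivity) pj.ne',
      Real.logb_rpow (by norm_num) (by norm_num)] at h2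
    rw [zc_lb hx.pos hdN g hi', zc_lb hx.pos hdN h hj', h6]
    linarith

theorem ev_lb_shift (x : ℕ → ℝ) (N s : ℕ) (l : List ℤ) (u : ℕ) :
    ev (lb x N) (s + u) l = ev (lb x (N - s)) u l := by
  induction l generalizing u with
  | nil => rfl
  | cons a l ih =>
    simp only [ev]
    have h1 : lb x N (s + u) = lb x (N - s) u := by
      simp only [lb]
      congr 2
      omega
    rw [h1, add_assoc, ih]

theorem ev_replicate_append (y : ℕ → ℝ) (n s : ℕ) (l : List ℤ) :
    ev y s (List.replicate n 0 ++ l) = ev y (s + n) l := by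
  induction n generalizing s with
  | zero => simp
  | succ n ih =>
    simp only [List.replicate_succ, List.cons_append, ev, ih]
    have : s + 1 + n = s + (n + 1) := by ring
    rw [this]; simp

/-- There is a positive solution with initial values `5 ^ s i`. -/
theorem exists_sol {mS mT : ℕ} (hS : (fs mS).Nonempty) (hT : (fs mT).Nonempty) (g h : List ℤ)
    (s : List ℤ) : ∃ x : ℕ → ℝ, PosSolution (coef mS g) (coef mT h) x ∧
      IsSolution (coef mS g) (coef mT h) x ∧
      ∀ i, i < 4 → Real.logb 5 (x i) = ((s.getD i 0 : ℤ) : ℝ) := by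
  have h5 : (1 : ℝ) < 5 := by norm_num
  have hb := coef_supported mS g
  have hB := coef_supported mT h
  set s0 : ℝ × ℝ × ℝ × ℝ := ((5 : ℝ) ^ (s.getD 0 0), (5 : ℝ) ^ (s.getD 1 0),
    (5 : ℝ) ^ (s.getD 2 0), (5 : ℝ) ^ (s.getD 3 0)) with hs0
  have hx := posSolution_seq hb hB hS hT (s := s0) (by simp only [hs0]; positivity)
    (by simp only [hs0]; positivity) (by simp only [hs0]; positivity)
    (by simp only [hs0]; positivity)
  refine ⟨seq (coef mS g) (coef mT h) s0, hx, ⟨fun n _ => (hx.pos n).le, fun n => ?_, hx.step⟩, ?_⟩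
  · exact lin_pos hB hT (hx.pos _) (hx.pos _) (hx.pos _) (hx.pos _)
  · intro i hi
    have e0 : seq (coef mS g) (coef mT h) s0 0 = (5 : ℝ) ^ (s.getD 0 0) := rfl
    have e1 : seq (coef mS g) (coef mT h) s0 1 = (5 : ℝ) ^ (s.getD 1 0) := rfl
    have e2 : seq (coef mS g) (coef mT h) s0 2 = (5 : ℝ) ^ (s.getD 2 0) := rfl
    have e3 : seq (coef mS g) (coef mT h) s0 3 = (5 : ℝ) ^ (s.getD 3 0) := rfl
    interval_cases i
    · rw [e0, logb_zpow5]
    · rw [e1, logb_zpow5]
    · rw [e2, logb_zpow5]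
    · rw [e3, logb_zpow5]

end Pool.Agent.RatRec
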