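import Pool.Agent.Lib_helper61.Rat.Window

/-!
Unbounded solutions with zeros: only one residue class of the indices carries positive terms.
-/

set_option autoImplicit false

namespace Pool.Agent.RatRec

/-- Coefficients: `c0` at the index `0`, `c` at the other indices of the mask. -/
noncomputable def zcoef (m : ℕ) (i : Fin 5) : ℝ :=
  if i ∈ fs m then 1 else 0

theorem zcoef_supported (m : ℕ) : SupportedOn (zcoef m) (fs m) :=
  ⟨fun i hi => by simp [zcoef, hi], fun i hi => by simp [zcoef, hi]⟩

theorem two_supported (m : ℕ) : SupportedOn (fun i => 2 * zcoef m i) (fs m) :=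
  ⟨fun i hi => by simp [zcoef, hi], fun i hi => by simp [zcoef, hi]⟩

theorem not_bdd_pow {x : ℕ → ℝ} {p r : ℕ} (hp : 0 < p) (h : ∀ k, x (p * k + r) = 2 ^ k) :
    ¬ ∃ M : ℝ, ∀ n, x n ≤ M := by
  rintro ⟨M, hM⟩
  obtain ⟨k, hk⟩ := pow_unbounded_of_one_lt M (show (1 : ℝ) < 2 by norm_num)
  have := hM (p * k + r)
  rw [h] at this
  linarith

/-- The case of the numerator `x_{n-3}`. -/
theorem unb_zero3 {mT : ℕ} (h0 : (0 : Fin 5) ∈ fs mT) (h3 : (3 : Fin 5) ∉ fs mT) :
    ¬ BoundedOnly (fs 8) (fs mT) := by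
  intro hB
  set x : ℕ → ℝ := fun n => if n % 3 = 1 then 2 ^ (n / 3) else 0 with hx
  have hnn : ∀ n, 0 ≤ x n := by
    intro n
    simp only [hx]
    split_ifs
    · positivity
    · exact le_rfl
  have hT0 : zcoef mT 0 = 1 := by simp [zcoef, h0]
  have hT3 : zcoef mT 3 = 0 := by simp [zcoef, h3]
  have hTn : ∀ i, 0 ≤ zcoef mT i := (zcoef_supported mT).nonneg
  have hden : ∀ n, 0 < lin (zcoef mT) x n := by
    intro n
    have e1 := mul_nonneg (hTn 1) (hnn (n + 3))
    have e2 := mul_nonneg (hTn 2) (hnn (n + 2))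
    have e3 := mul_nonneg (hTn 3) (hnn (n + 1))
    have e4 := mul_nonneg (hTn 4) (hnn n)
    simp only [lin, hT0]
    linarith
  have hnum : ∀ n, lin (fun i => 2 * zcoef 8 i) x n = 2 * x (n + 1) := by
    intro n
    have a0 : zcoef 8 0 = 0 := by
      have : (0 : Fin 5) ∉ fs 8 := by decide
      simp [zcoef, this]
    have a1 : zcoef 8 1 = 0 := by
      have : (1 : Fin 5) ∉ fs 8 := by decide
      simp [zcoef, this]
    have a2 : zcoef 8 2 = 0 := by
      have : (2 : Fin 5) ∉ fs 8 := by decide
      simp [zcoef, this]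
    have a3 : zcoef 8 3 = 1 := by
      have : (3 : Fin 5) ∈ fs 8 := by decide
      simp [zcoef, this]
    have a4 : zcoef 8 4 = 0 := by
      have : (4 : Fin 5) ∉ fs 8 := by decide
      simp [zcoef, this]
    simp only [lin, a0, a1, a2, a3, a4]
    ring
  have hsol : IsSolution (fun i => 2 * zcoef 8 i) (zcoef mT) x := by
    refine ⟨fun n _ => hnn n, hden, fun n => ?_⟩
    rw [eq_div_iff (hden n).ne', hnum]
    by_cases hn : n % 3 = 0
    · have b0 : x n = 0 := by simp only [hx]; rw [if_neg (by omega)]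
      have b2 : x (n + 2) = 0 := by simp only [hx]; rw [if_neg (by omega)]
      have b3 : x (n + 3) = 0 := by simp only [hx]; rw [if_neg (by omega)]
      have b4 : x (n + 4) = 2 * x (n + 1) := by
        simp only [hx]
        rw [if_pos (by omega), if_pos (by omega)]
        have : (n + 4) / 3 = (n + 1) / 3 + 1 := by omega
        rw [this, pow_succ]
        ring
      simp only [lin, hT0, hT3, b0, b2, b3, b4]
      ring
    · have b1 : x (n + 1) = 0 := by simp only [hx]; rw [if_neg (by omega)]
      have b4 : x (n + 4) = 0 := by simp only [hx]; rw [if_neg (by omega)]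
      rw [b1, b4]
      ring
  obtain ⟨M, hM⟩ := hB _ _ (two_supported 8) (zcoef_supported mT) x hsol
  refine not_bdd_pow (p := 3) (r := 1) (by norm_num) (fun k => ?_) ⟨M, hM⟩
  simp only [hx]
  rw [if_pos (by omega)]
  congr 1
  omega

/-- The case of the numerator `x_{n-4}`. -/
theorem unb_zero4 {mT : ℕ} (h0 : (0 : Fin 5) ∈ fs mT) (h4 : (4 : Fin 5) ∉ fs mT) :
    ¬ BoundedOnly (fs 16) (fs mT) := by
  intro hB
  set x : ℕ → ℝ := fun n => if n % 4 = 0 then 2 ^ (n / 4) else 0 with hx
  have hnn : ∀ n, 0 ≤ x n := by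
    intro n
    simp only [hx]
    split_ifs
    · positivity
    · exact le_rfl
  have hT0 : zcoef mT 0 = 1 := by simp [zcoef, h0]
  have hT4 : zcoef mT 4 = 0 := by simp [zcoef, h4]
  have hTn : ∀ i, 0 ≤ zcoef mT i := (zcoef_supported mT).nonneg
  have hden : ∀ n, 0 < lin (zcoef mT) x n := by
    intro n
    have e1 := mul_nonneg (hTn 1) (hnn (n + 3))
    have e2 := mul_nonneg (hTn 2) (hnn (n + 2))
    have e3 := mul_nonneg (hTn 3) (hnn (n + 1))
    have e4 := mul_nonneg (hTn 4) (hnn n)
    simp only [lin, hT0]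
    linarith
  have hnum : ∀ n, lin (fun i => 2 * zcoef 16 i) x n = 2 * x n := by
    intro n
    have a0 : zcoef 16 0 = 0 := by
      have : (0 : Fin 5) ∉ fs 16 := by decide
      simp [zcoef, this]
    have a1 : zcoef 16 1 = 0 := by
      have : (1 : Fin 5) ∉ fs 16 := by decide
      simp [zcoef, this]
    have a2 : zcoef 16 2 = 0 := by
      have : (2 : Fin 5) ∉ fs 16 := by decide
      simp [zcoef, this]
    have a3 : zcoef 16 3 = 0 := by
      have : (3 : Fin 5) ∉ fs 16 := by decide
      simp [zcoef, this]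
    have a4 : zcoef 16 4 = 1 := by
      have : (4 : Fin 5) ∈ fs 16 := by decide
      simp [zcoef, this]
    simp only [lin, a0, a1, a2, a3, a4]
    ring
  have hsol : IsSolution (fun i => 2 * zcoef 16 i) (zcoef mT) x := by
    refine ⟨fun n _ => hnn n, hden, fun n => ?_⟩
    rw [eq_div_iff (hden n).ne', hnum]
    by_cases hn : n % 4 = 0
    · have b1 : x (n + 1) = 0 := by simp only [hx]; rw [if_neg (by omega)]
      have b2 : x (n + 2) = 0 := by simp only [hx]; rw [if_neg (by omega)]
      have b3 : x (n + 3) = 0 := by simp only [hx]; rw [if_neg (by omega)]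
      have b4 : x (n + 4) = 2 * x n := by
        simp only [hx]
        rw [if_pos (by omega), if_pos (by omega)]
        have : (n + 4) / 4 = n / 4 + 1 := by omega
        rw [this, pow_succ]
        ring
      simp only [lin, hT0, hT4, b1, b2, b3, b4]
      ring
    · have b0 : x n = 0 := by simp only [hx]; rw [if_neg (by omega)]
      have b4 : x (n + 4) = 0 := by simp only [hx]; rw [if_neg (by omega)]
      rw [b0, b4]
      ring
  obtain ⟨M, hM⟩ := hB _ _ (two_supported 16) (zcoef_supported mT) x hsol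
  refine not_bdd_pow (p := 4) (r := 0) (by norm_num) (fun k => ?_) ⟨M, hM⟩
  simp only [hx]
  rw [if_pos (by omega)]
  congr 1
  omega

/-- The cases settled by solutions with zeros. -/
def zeroPairs : List (ℕ × ℕ) :=
  [(8, 3), (8, 5), (8, 17), (8, 19), (16, 3), (16, 7), (16, 9), (16, 13)]

theorem zeroPairs_unb : ∀ p ∈ zeroPairs, ¬ BoundedOnly (fs p.1) (fs p.2) := by
  intro p hp
  simp only [zeroPairs, List.mem_cons, List.not_mem_nil, or_false] at hp
  rcases hp with rfl | rfl | rfl | rfl | rfl | rfl | rfl | rfl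
  · exact unb_zero3 (by decide) (by decide)
  · exact unb_zero3 (by decide) (by decide)
  · exact unb_zero3 (by decide) (by decide)
  · exact unb_zero3 (by decide) (by decide)
  · exact unb_zero4 (by decide) (by decide)
  · exact unb_zero4 (by decide) (by decide)
  · exact unb_zero4 (by decide) (by decide)
  · exact unb_zero4 (by decide) (by decide)

end Pool.Agent.RatRec
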